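import Mathlib
import Pool.Agent.TH881.RG.Den
import Pool.Agent.H387R2.U3

set_option autoImplicit false

namespace Pool.Agent.TH811.J1509

open Finset Filter Topology
open Pool.Agent.TH881
open Pool.Agent.TH881.RG
open Pool.Agent.H373R2.T7

/-- the prime number theorem, for naturals -/
lemma pnt_nat (ε : ℝ) (hε : 0 < ε) : ∃ M0 : ℕ, ∀ M : ℕ, M0 ≤ M →
    |H343E.pi1 M * Real.log M / M - 1| ≤ ε := by
  have h := (Pool.Agent.Helper507.PNT.pi_tendsto.comp (tendsto_natCast_atTop_atTop (R := ℝ)))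
  rw [Metric.tendsto_atTop] at h
  obtain ⟨M0, hM0⟩ := h ε hε
  refine ⟨M0, fun M hM => ?_⟩
  have h1 := hM0 M hM
  rw [Real.dist_eq] at h1
  simp only [Function.comp, Nat.floor_natCast] at h1
  rw [H387R2.Uni.pi1_eq]
  exact h1.le

theorem primes_class (w : ℕ) (ε ρ : ℝ) (hε : 0 < ε) (hρ : 0 < ρ) : ∃ N0 : ℕ, ∀ N : ℕ, N0 ≤ N →
    ∀ M : ℕ, M ≤ N → ρ * N ≤ M → ∀ a : ZMod (Wp w), IsUnit a →
    |bbf w M ((Icc 1 M).filter (fun p : ℕ => p.Prime ∧ √(N : ℝ) < p)) a - 1| ≤ ε := by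
  classical
  set W := Wp w with hW
  have hWpos : 0 < W := Wp_pos w
  set φ : ℝ := (Nat.totient W : ℝ) with hφ
  have hφpos : 0 < φ := totient_Wp_pos w
  obtain ⟨x0, hx0⟩ := H387R2.Uni.siegel
  obtain ⟨M1, hM1⟩ := pnt_nat (ε / 3) (by positivity)
  -- log M ^ 2 ≥ W and φ / log M ^ 5 ≤ ε / 3 for large M
  have hlogt : Tendsto (fun M : ℕ => Real.log (M : ℝ)) atTop atTop :=
    Real.tendsto_log_atTop.comp tendsto_natCast_atTop_atTop
  obtain ⟨M2, hM2⟩ := eventually_atTop.1 (hlogt.eventually_ge_atTop (max 1 (max (W : ℝ) (3 * φ / ε))))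
  -- φ log N ≤ (ε ρ / 3) √N for large N
  have hs : ∀ᶠ x : ℝ in atTop, Real.log x ^ (2 : ℝ) ≤ (ε * ρ / (3 * φ)) ^ 2 * x :=
    H387R2.Uni.log_pow_small 2 (by positivity)
  obtain ⟨N3, hN3⟩ := eventually_atTop.1 (tendsto_natCast_atTop_atTop.eventually hs)
  obtain ⟨K, hK⟩ := exists_nat_gt (((max (max x0 M1) M2 : ℕ) : ℝ) / ρ)
  refine ⟨max (max K N3) 2, fun N hN M hMN hρM a ha => ?_⟩
  have hNK : K ≤ N := (le_max_left _ _).trans ((le_max_left _ _).trans hN)
  have hN3' : N3 ≤ N := (le_max_right _ _).trans ((le_max_left _ _).trans hN)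
  have hN2 : 2 ≤ N := (le_max_right _ _).trans hN
  have hNpos : (0 : ℝ) < N := by exact_mod_cast (by omega : 0 < N)
  have hMmax : max (max x0 M1) M2 ≤ M := by
    have h1 : ((max (max x0 M1) M2 : ℕ) : ℝ) < ρ * K := by
      rw [div_lt_iff₀ hρ] at hK
      linarith
    have h2 : ρ * (K : ℝ) ≤ ρ * N := by
      have : (K : ℝ) ≤ N := by exact_mod_cast hNK
      gcongr
    have h3 : ((max (max x0 M1) M2 : ℕ) : ℝ) < M := by linarith
    exact_mod_cast h3.le
  have hMx0 : x0 ≤ M := (le_max_left _ _).trans ((le_max_left _ _).trans hMmax)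
  have hMM1 : M1 ≤ M := (le_max_right _ _).trans ((le_max_left _ _).trans hMmax)
  have hMM2 : M2 ≤ M := (le_max_right _ _).trans hMmax
  have hlogM := hM2 M hMM2
  have hlog1 : (1 : ℝ) ≤ Real.log M := (le_max_left _ _).trans hlogM
  have hlogW : (W : ℝ) ≤ Real.log M := (le_max_left _ _).trans ((le_max_right _ _).trans hlogM)
  have hlogφ : 3 * φ / ε ≤ Real.log M := (le_max_right _ _).trans ((le_max_right _ _).trans hlogM)
  have hMpos : (0 : ℝ) < M := by
    rcases Nat.eq_zero_or_pos M with h | h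
    · rw [h] at hlog1; simp at hlog1; linarith
    · exact_mod_cast h
  have hL : 0 < Real.log M := by linarith
  -- the class
  have hcop : a.val.Coprime W := by
    have h1 := (ZMod.isUnit_iff_coprime a.val W).1 (by rwa [ZMod.natCast_zmod_val])
    exact h1
  have hval : a.val < W := ZMod.val_lt a
  have hSW := hx0 M hMx0 W hWpos (by nlinarith) a.val hval hcop
  -- comparison of the counts
  set B := (Icc 1 M).filter (fun p : ℕ => p.Prime ∧ √(N : ℝ) < p) with hB
  set P := (Icc 1 M).filter (fun p : ℕ => p.Prime ∧ p ≡ a.val [MOD W]) with hP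
  have hcls : cls w B a = P.filter (fun p : ℕ => √(N : ℝ) < p) := by
    ext p
    simp only [cls, hB, hP, mem_filter, mem_Icc]
    have h1 : ((p : ZMod W) = a) ↔ p ≡ a.val [MOD W] := by
      rw [← ZMod.natCast_eq_natCast_iff, ZMod.natCast_zmod_val]
    constructor
    · rintro ⟨⟨h2, h3, h4⟩, h5⟩
      exact ⟨⟨h2, h3, h1.1 h5⟩, h4⟩
    · rintro ⟨⟨h2, h3, h5⟩, h4⟩
      exact ⟨⟨h2, h3, h4⟩, h1.2 h5⟩
  have hpi : H343E.piAP M W a.val = (P.card : ℝ) := by
    rw [H343E.piAP, hP]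
  have hcard : (P.card : ℝ) = ((cls w B a).card : ℝ) +
      ((P.filter (fun p : ℕ => ¬ √(N : ℝ) < p)).card : ℝ) := by
    rw [hcls]
    exact_mod_cast (card_filter_add_card_filter_not (s := P) (fun p : ℕ => √(N : ℝ) < p)).symm
  have hsmall : ((P.filter (fun p : ℕ => ¬ √(N : ℝ) < p)).card : ℝ) ≤ √(N : ℝ) := by
    have h1 : P.filter (fun p : ℕ => ¬ √(N : ℝ) < p) ⊆ Icc 1 ⌊√(N : ℝ)⌋₊ := by
      intro p hp
      rw [mem_filter, hP, mem_filter, mem_Icc] at hp
      rw [mem_Icc]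
      exact ⟨hp.1.1.1, Nat.le_floor (not_lt.1 hp.2)⟩
    have h2 := card_le_card h1
    rw [Nat.card_Icc, Nat.add_sub_cancel] at h2
    exact le_trans (by exact_mod_cast h2) (Nat.floor_le (Real.sqrt_nonneg _))
  set q : ℝ := ((P.filter (fun p : ℕ => ¬ √(N : ℝ) < p)).card : ℝ) with hq
  have hq0 : 0 ≤ q := Nat.cast_nonneg _
  rw [hpi, hcard] at hSW
  set c : ℝ := ((cls w B a).card : ℝ) with hc
  -- the three errors
  have hP1 := hM1 M hMM1
  have hbbf : bbf w M B a = c * (φ * Real.log M) / M := by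
    unfold bbf pp
    rw [← hc, div_div_eq_mul_div]
  have hdec : bbf w M B a - 1 = (c + q - H343E.pi1 M / φ) * (φ * Real.log M) / M
      - q * (φ * Real.log M) / M + (H343E.pi1 M * Real.log M / M - 1) := by
    rw [hbbf]
    field_simp
    ring
  have e1 : |(c + q - H343E.pi1 M / φ) * (φ * Real.log M) / M| ≤ ε / 3 := by
    rw [abs_div, abs_mul, abs_of_pos hMpos, abs_of_pos (by positivity : 0 < φ * Real.log M),
      div_le_iff₀ hMpos]
    calc |c + q - H343E.pi1 M / φ| * (φ * Real.log M)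
        ≤ (M / Real.log M ^ 6) * (φ * Real.log M) := by gcongr
      _ = (φ / Real.log M ^ 5) * M := by field_simp
      _ ≤ ε / 3 * M := by
          refine mul_le_mul_of_nonneg_right ?_ hMpos.le
          rw [div_le_iff₀ (by positivity)]
          have h1 : φ ≤ ε / 3 * Real.log M := by
            rw [div_le_iff₀ hε] at hlogφ
            linarith
          have h2 : Real.log M ≤ Real.log M ^ 5 := by
            calc Real.log M = Real.log M ^ 1 := (pow_one _).symm
              _ ≤ Real.log M ^ 5 := pow_le_pow_right₀ hlog1 (by norm_num)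
          calc φ ≤ ε / 3 * Real.log M := h1
            _ ≤ ε / 3 * Real.log M ^ 5 := by gcongr
  have e2 : |q * (φ * Real.log M) / M| ≤ ε / 3 := by
    rw [abs_of_nonneg (by positivity), div_le_iff₀ hMpos]
    have h1 := hN3 N hN3'
    have hlogN : 0 ≤ Real.log N := Real.log_nonneg (by exact_mod_cast (by omega : 1 ≤ N))
    rw [show (2 : ℝ) = ((2 : ℕ) : ℝ) by norm_num, Real.rpow_natCast] at h1
    have h2 : Real.log N ≤ (ε * ρ / (3 * φ)) * √(N : ℝ) := by
      have h3 : ((ε * ρ / (3 * φ)) * √(N : ℝ)) ^ 2 = (ε * ρ / (3 * φ)) ^ 2 * N := by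
        rw [mul_pow, Real.sq_sqrt hNpos.le]
      have h4 : Real.log N ^ 2 ≤ ((ε * ρ / (3 * φ)) * √(N : ℝ)) ^ 2 := by
        rw [h3]
        exact h1
      exact (sq_le_sq₀ hlogN (by positivity)).1 h4
    have h5 : Real.log M ≤ Real.log N := Real.log_le_log hMpos (by exact_mod_cast hMN)
    calc q * (φ * Real.log M) ≤ √(N : ℝ) * (φ * ((ε * ρ / (3 * φ)) * √(N : ℝ))) := by
          gcongr
          exact h5.trans h2
      _ = ε / 3 * (ρ * (√(N : ℝ) * √(N : ℝ))) := by field_simp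
      _ = ε / 3 * (ρ * N) := by rw [Real.mul_self_sqrt hNpos.le]
      _ ≤ ε / 3 * M := by gcongr
  rw [hdec]
  calc _ ≤ |(c + q - H343E.pi1 M / φ) * (φ * Real.log M) / M| + |q * (φ * Real.log M) / M| +
      |H343E.pi1 M * Real.log M / M - 1| := by
        refine (abs_add_le _ _).trans (add_le_add (abs_sub _ _) le_rfl)
    _ ≤ ε / 3 + ε / 3 + ε / 3 := by gcongr
    _ = ε := by ring

end Pool.Agent.TH811.J1509
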