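import Mathlib

/-! Gronwall type uniqueness. -/

open Set

namespace Pool.Agent.JobGron

/-- A curve in a normed space whose velocity is bounded by a multiple of its norm and which vanishes
at one time vanishes. -/
theorem eq_zero_of_deriv_le {F : Type*} [NormedAddCommGroup F] [NormedSpace ℝ F]
    {y y' : ℝ → F} {a b t₀ K : ℝ} (ht : t₀ ∈ Ioo a b)
    (hd : ∀ t ∈ Ioo a b, HasDerivAt y (y' t) t) (hle : ∀ t ∈ Ioo a b, ‖y' t‖ ≤ K * ‖y t‖)
    (h0 : y t₀ = 0) : ∀ t ∈ Ioo a b, y t = 0 := by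
  intro t htt
  rcases le_total t₀ t with h | h
  · have hsub : ∀ s ∈ Icc t₀ t, s ∈ Ioo a b := fun s hs =>
      ⟨lt_of_lt_of_le ht.1 hs.1, lt_of_le_of_lt hs.2 htt.2⟩
    exact eq_zero_of_abs_deriv_le_mul_abs_self_of_eq_zero_right
      (f := y) (f' := y') (K := K) (a := t₀) (b := t)
      (fun s hs => (hd s (hsub s hs)).continuousAt.continuousWithinAt)
      (fun s hs => (hd s (hsub s ⟨hs.1, hs.2.le⟩)).hasDerivWithinAt) h0
      (fun s hs => hle s (hsub s ⟨hs.1, hs.2.le⟩)) t ⟨h, le_refl _⟩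
  · have hsub : ∀ s ∈ Icc (-t₀) (-t), -s ∈ Ioo a b := fun s hs =>
      ⟨by have := hs.2; have := htt.1; linarith, by have := hs.1; have := ht.2; linarith⟩
    have hd' : ∀ s ∈ Icc (-t₀) (-t), HasDerivAt (fun s => y (-s)) (-(y' (-s))) s := by
      intro s hs
      have h1 := hd (-s) (hsub s hs)
      have h2 := HasDerivAt.scomp s h1 (hasDerivAt_neg s)
      rw [neg_one_smul] at h2
      exact h2
    have h3 := eq_zero_of_abs_deriv_le_mul_abs_self_of_eq_zero_right
      (f := fun s => y (-s)) (f' := fun s => -(y' (-s))) (K := K) (a := -t₀) (b := -t)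
      (fun s hs => (hd' s hs).continuousAt.continuousWithinAt)
      (fun s hs => (hd' s ⟨hs.1, hs.2.le⟩).hasDerivWithinAt) (by simpa using h0)
      (fun s hs => by
        rw [norm_neg]
        exact hle (-s) (hsub s ⟨hs.1, hs.2.le⟩)) (-t) ⟨by linarith, le_refl _⟩
    simpa using h3

end Pool.Agent.JobGron
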