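import Mathlib

/-! Algebra of integer 3x3 matrices near the identity on an invariant plane; rational vectors. -/

open Matrix

namespace Pool.Agent.JobAlg


/-- integer vector as a real vector -/
def rv {m : ℕ} (k : Fin m → ℤ) : Fin m → ℝ := fun i => (k i : ℝ)

/-- clearing denominators -/
theorem clear_den {m : ℕ} (q : Fin m → ℚ) :
    ∃ D : ℕ, 0 < D ∧ ∃ k : Fin m → ℤ, ∀ l, (k l : ℚ) = D * q l := by
  refine ⟨∏ l, (q l).den, Finset.prod_pos (fun l _ => (q l).den_pos), ?_⟩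
  have : ∀ l, ∃ z : ℤ, (z : ℚ) = ((∏ l, (q l).den : ℕ) : ℚ) * q l := by
    intro l
    obtain ⟨c, hc⟩ := Finset.dvd_prod_of_mem (fun l => (q l).den) (Finset.mem_univ l)
    refine ⟨(c : ℤ) * (q l).num, ?_⟩
    rw [hc]
    have h1 : ((q l).den : ℚ) * q l = (q l).num := Rat.den_mul_eq_num (q l)
    push_cast
    rw [← h1]
    ring
  choose k hk using this
  exact ⟨k, hk⟩

/-- A common real eigenvector for the eigenvalue one of integer matrices gives an integer one. -/
theorem exists_int_fixed {m : ℕ} {I : Type*} (B : I → Matrix (Fin m) (Fin m) ℤ)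
    (κ : Fin m → ℝ) (hκ : κ ≠ 0)
    (h : ∀ i, ((B i).map (Int.cast : ℤ → ℝ)).mulVec κ = κ) :
    ∃ k : Fin m → ℤ, k ≠ 0 ∧ ∀ i, (B i).mulVec k = k := by
  obtain ⟨j, hj⟩ : ∃ j, κ j ≠ 0 := by
    by_contra hcon
    push Not at hcon
    exact hκ (funext hcon)
  obtain ⟨φ, hφ⟩ : ∃ φ : Module.Dual ℚ ℝ, φ (κ j) ≠ 0 := by
    by_contra hcon
    push Not at hcon
    exact hj ((Module.forall_dual_apply_eq_zero_iff ℚ (κ j)).1 hcon)
  obtain ⟨D, hD, k, hk⟩ := clear_den (fun l => φ (κ l))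
  have hD' : (D : ℚ) ≠ 0 := by exact_mod_cast hD.ne'
  refine ⟨k, ?_, ?_⟩
  · intro h0
    have := hk j
    rw [h0] at this
    simp only [Pi.zero_apply, Int.cast_zero] at this
    exact (mul_ne_zero hD' hφ) this.symm
  · intro i
    funext r
    have h1 := congrFun (h i) r
    have h2 : φ (∑ l, (B i r l : ℝ) * κ l) = φ (κ r) := by
      rw [← h1]
      rfl
    have h3 : φ (∑ l, (B i r l : ℝ) * κ l) = ∑ l, (B i r l : ℚ) * φ (κ l) := by
      rw [map_sum]
      refine Finset.sum_congr rfl (fun l _ => ?_)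
      have : ((B i r l : ℝ) * κ l) = (B i r l : ℚ) • κ l := by
        rw [Rat.smul_def]
        push_cast
        rfl
      rw [this, map_smul, smul_eq_mul]
    have h4 : (((B i).mulVec k r : ℤ) : ℚ) = ((k r : ℤ) : ℚ) := by
      have : (B i).mulVec k r = ∑ l, B i r l * k l := rfl
      rw [this]
      push_cast
      simp_rw [hk]
      rw [← h2, h3, Finset.mul_sum]
      refine Finset.sum_congr rfl (fun l _ => ?_)
      ring
    exact_mod_cast h4



/-- Cayley-Hamilton for an integer matrix with trace 3, sum of principal 2-minors 3, det 1. -/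
theorem unip_aux (a b c d e f p q r : ℤ) (h1 : a + e + r = 3)
    (h2 : (a * e - b * d) + (a * r - c * p) + (e * r - f * q) = 3)
    (h3 : a * e * r - a * f * q - b * d * r + b * f * p + c * d * q - c * e * p = 1) :
    (!![a, b, c; d, e, f; p, q, r] - 1 : Matrix (Fin 3) (Fin 3) ℤ) ^ 3 = 0 := by
  have h0 : (!![a, b, c; d, e, f; p, q, r] - 1 : Matrix (Fin 3) (Fin 3) ℤ) =
      !![a - 1, b, c; d, e - 1, f; p, q, r - 1] := by
    rw [Matrix.one_fin_three]
    ext i j
    fin_cases i <;> fin_cases j <;> simp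
  rw [h0, pow_succ, pow_two, Matrix.mul_fin_three, Matrix.mul_fin_three]
  ext i j
  fin_cases i <;> fin_cases j <;> simp
  · linear_combination (a * a + b * d + c * p) * h1 - a * h2 + h3
  · linear_combination (a * b + b * e + c * q) * h1 - b * h2
  · linear_combination (a * c + b * f + c * r) * h1 - c * h2
  · linear_combination (d * a + e * d + f * p) * h1 - d * h2
  · linear_combination (d * b + e * e + f * q) * h1 - e * h2 + h3
  · linear_combination (d * c + e * f + f * r) * h1 - f * h2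
  · linear_combination (p * a + q * d + r * p) * h1 - p * h2
  · linear_combination (p * b + q * e + r * q) * h1 - q * h2
  · linear_combination (p * c + q * f + r * r) * h1 - r * h2 + h3

/-- Cayley-Hamilton for an integer matrix with trace 3, sum of principal 2-minors 3, det 1. -/
theorem unip_of_inv (g : Matrix (Fin 3) (Fin 3) ℤ)
    (h1 : g 0 0 + g 1 1 + g 2 2 = 3)
    (h2 : (g 0 0 * g 1 1 - g 0 1 * g 1 0) + (g 0 0 * g 2 2 - g 0 2 * g 2 0) +
      (g 1 1 * g 2 2 - g 1 2 * g 2 1) = 3)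
    (h3 : g.det = 1) : (g - 1) ^ 3 = 0 := by
  rw [Matrix.det_fin_three] at h3
  rw [Matrix.eta_fin_three g]
  exact unip_aux _ _ _ _ _ _ _ _ _ h1 h2 h3



theorem tr_id (G : Matrix (Fin 3) (Fin 3) ℝ) (x y z : Fin 3 → ℝ) :
    (G 0 0 + G 1 1 + G 2 2) * (crossProduct x y ⬝ᵥ z) =
      crossProduct (G.mulVec x) y ⬝ᵥ z + crossProduct x (G.mulVec y) ⬝ᵥ z +
        crossProduct x y ⬝ᵥ (G.mulVec z) := by
  simp only [cross_apply, Matrix.mulVec, dotProduct, Fin.sum_univ_three, Matrix.cons_val]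
  ring

theorem s2_id (G : Matrix (Fin 3) (Fin 3) ℝ) (x y z : Fin 3 → ℝ) :
    ((G 0 0 * G 1 1 - G 0 1 * G 1 0) + (G 0 0 * G 2 2 - G 0 2 * G 2 0) +
      (G 1 1 * G 2 2 - G 1 2 * G 2 1)) * (crossProduct x y ⬝ᵥ z) =
      crossProduct (G.mulVec x) (G.mulVec y) ⬝ᵥ z + crossProduct (G.mulVec x) y ⬝ᵥ (G.mulVec z) +
        crossProduct x (G.mulVec y) ⬝ᵥ (G.mulVec z) := by
  simp only [cross_apply, Matrix.mulVec, dotProduct, Fin.sum_univ_three, Matrix.cons_val]
  ring

theorem cof_id (G : Matrix (Fin 3) (Fin 3) ℝ) (x y : Fin 3 → ℝ) :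
    Gᵀ.mulVec (crossProduct (G.mulVec x) (G.mulVec y)) = G.det • crossProduct x y := by
  rw [Matrix.det_fin_three]
  funext i
  fin_cases i <;>
    simp [cross_apply, Matrix.mulVec, dotProduct, Fin.sum_univ_three, Matrix.transpose_apply] <;>
    ring

theorem par_id (e p c w : Fin 3 → ℝ) (hp : p ⬝ᵥ e = 0) (hc : c ⬝ᵥ e = 0) :
    (crossProduct p c ⬝ᵥ w) * (e ⬝ᵥ e) = (crossProduct p c ⬝ᵥ e) * (e ⬝ᵥ w) := by
  simp only [cross_apply, dotProduct, Fin.sum_univ_three, Matrix.cons_val] at *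
  have h1 : crossProduct (crossProduct e w) e ⬝ᵥ crossProduct p c = 0 := by
    have : crossProduct (crossProduct e w) e ⬝ᵥ crossProduct p c =
      (crossProduct e w ⬝ᵥ p) * (e ⬝ᵥ c) - (crossProduct e w ⬝ᵥ c) * (e ⬝ᵥ p) := by
      simp only [cross_apply, dotProduct, Fin.sum_univ_three, Matrix.cons_val]
      ring
    rw [this]
    simp only [dotProduct, Fin.sum_univ_three]
    have hp' : e 0 * p 0 + e 1 * p 1 + e 2 * p 2 = 0 := by linarith
    have hc' : e 0 * c 0 + e 1 * c 1 + e 2 * c 2 = 0 := by linarith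
    rw [hp', hc']
    ring
  simp only [cross_apply, dotProduct, Fin.sum_univ_three, Matrix.cons_val] at h1
  linear_combination h1

/-- An integer matrix of determinant one preserving the plane orthogonal to `a = κ × c`, close to the
identity on this plane, and not reversing the normal, is unipotent. -/
theorem unipotent_of_near (κ c : Fin 3 → ℝ) (hne : crossProduct κ c ≠ 0) :
    ∃ ε > (0:ℝ), ∀ (g : Matrix (Fin 3) (Fin 3) ℤ) (μ : ℝ), g.det = 1 →
      ((g.map (Int.cast : ℤ → ℝ))ᵀ).mulVec (crossProduct κ c) = μ • crossProduct κ c → 0 < μ →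
      ‖(g.map (Int.cast : ℤ → ℝ)).mulVec κ - κ‖ < ε →
      (‖(g.map (Int.cast : ℤ → ℝ)).mulVec c - c‖ < ε ∨
        ‖(g.map (Int.cast : ℤ → ℝ)).mulVec c + c‖ < ε) →
      (g - 1) ^ 3 = 0 ∧ ‖(g.map (Int.cast : ℤ → ℝ)).mulVec c - c‖ < ε := by
  have hκe : κ ⬝ᵥ crossProduct κ c = 0 := dot_self_cross κ c
  have hce : c ⬝ᵥ crossProduct κ c = 0 := dot_cross_self κ c
  set e := crossProduct κ c with he
  have hee : 0 < e ⬝ᵥ e := by
    rcases lt_or_eq_of_le (show 0 ≤ e ⬝ᵥ e from Finset.sum_nonneg fun i _ => mul_self_nonneg (e i))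
      with h1 | h1
    · exact h1
    · exact absurd (dotProduct_self_eq_zero.1 h1.symm) hne
  set Δ := e ⬝ᵥ e with hΔ
  -- the two continuous functions
  set F1 : (Fin 3 → ℝ) × (Fin 3 → ℝ) → ℝ := fun z =>
    (crossProduct z.1 c ⬝ᵥ e + crossProduct κ z.2 ⬝ᵥ e) / Δ with hF1
  set F2 : (Fin 3 → ℝ) × (Fin 3 → ℝ) → ℝ := fun z => (crossProduct z.1 z.2 ⬝ᵥ e) / Δ with hF2
  have cF1 : Continuous F1 := by
    rw [hF1]
    simp only [cross_apply, dotProduct, Fin.sum_univ_three, Matrix.cons_val]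
    fun_prop
  have cF2 : Continuous F2 := by
    rw [hF2]
    simp only [cross_apply, dotProduct, Fin.sum_univ_three, Matrix.cons_val]
    fun_prop
  have v1 : F1 (κ, c) = 2 := by
    rw [hF1]
    simp only [← he]
    rw [← hΔ]
    field_simp
    norm_num
  have v2 : F2 (κ, c) = 1 := by
    rw [hF2]
    simp only [← he]
    rw [← hΔ]
    field_simp
  have v3 : F2 (κ, -c) = -1 := by
    rw [hF2]
    simp only [map_neg, ← he, neg_dotProduct]
    rw [← hΔ]
    field_simp
  obtain ⟨ε1, hε1, H1⟩ := Metric.continuousAt_iff.1 (cF1.continuousAt (x := (κ, c))) (1/10)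
    (by norm_num)
  obtain ⟨ε2, hε2, H2⟩ := Metric.continuousAt_iff.1 (cF2.continuousAt (x := (κ, c))) (1/10)
    (by norm_num)
  obtain ⟨ε3, hε3, H3⟩ := Metric.continuousAt_iff.1 (cF2.continuousAt (x := (κ, -c))) (1/10)
    (by norm_num)
  refine ⟨min ε1 (min ε2 ε3), lt_min hε1 (lt_min hε2 hε3), ?_⟩
  intro g μ hdet hg hμ hκn hor
  set G := g.map (Int.cast : ℤ → ℝ) with hG
  have hGdet : G.det = 1 := by
    have : G.det = ((g.det : ℤ) : ℝ) := by
      rw [hG]
      exact (Int.cast_det g).symm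
    rw [this, hdet, Int.cast_one]
  set p := G.mulVec κ with hp
  set q := G.mulVec c with hq
  -- value of F2
  have hcross : crossProduct p q = μ⁻¹ • e := by
    have h1 : Gᵀ.mulVec (crossProduct p q - μ⁻¹ • e) = 0 := by
      rw [Matrix.mulVec_sub, Matrix.mulVec_smul, hg, smul_smul, inv_mul_cancel₀ hμ.ne', one_smul,
        cof_id, hGdet, one_smul, sub_self]
    have h2 := Matrix.eq_zero_of_mulVec_eq_zero (by rw [Matrix.det_transpose, hGdet]; norm_num) h1
    exact sub_eq_zero.1 h2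
  have hF2v : F2 (p, q) = μ⁻¹ := by
    rw [hF2]
    simp only
    rw [hcross, smul_dotProduct, ← hΔ, smul_eq_mul]
    field_simp
  -- the second alternative is impossible
  have hdist : ∀ (v v' : Fin 3 → ℝ) (ε : ℝ), ‖v - v'‖ < ε → dist v v' < ε := fun v v' ε h => by
    rwa [dist_eq_norm]
  have hcn : ‖q - c‖ < min ε1 (min ε2 ε3) := by
    rcases hor with h | h
    · exact h
    · exfalso
      have h1 : dist (p, q) (κ, -c) < ε3 := by
        rw [Prod.dist_eq]
        refine max_lt ?_ ?_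
        · exact hdist _ _ _ (lt_of_lt_of_le hκn ((min_le_right _ _).trans (min_le_right _ _)))
        · apply hdist
          rw [sub_neg_eq_add]
          exact lt_of_lt_of_le h ((min_le_right _ _).trans (min_le_right _ _))
      have h2 := H3 h1
      rw [v3, hF2v, Real.dist_eq, abs_lt] at h2
      have := inv_pos.2 hμ
      linarith [h2.2]
  refine ⟨?_, hcn⟩
  have h1 : dist (p, q) (κ, c) < ε1 := by
    rw [Prod.dist_eq]
    exact max_lt (hdist _ _ _ (lt_of_lt_of_le hκn (min_le_left _ _)))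
      (hdist _ _ _ (lt_of_lt_of_le hcn (min_le_left _ _)))
  have h2 : dist (p, q) (κ, c) < ε2 := by
    rw [Prod.dist_eq]
    exact max_lt (hdist _ _ _ (lt_of_lt_of_le hκn ((min_le_right _ _).trans (min_le_left _ _))))
      (hdist _ _ _ (lt_of_lt_of_le hcn ((min_le_right _ _).trans (min_le_left _ _))))
  have b1 := H1 h1
  have b2 := H2 h2
  rw [v1, Real.dist_eq, abs_lt] at b1
  rw [v2, hF2v, Real.dist_eq, abs_lt] at b2
  -- bounds on μ
  have hm1 : μ * μ⁻¹ = 1 := mul_inv_cancel₀ hμ.ne'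
  have bμ1 : 10 / 11 < μ := by nlinarith [b2.1, b2.2]
  have bμ2 : μ < 10 / 9 := by nlinarith [b2.1, b2.2]
  -- the trace
  have hGe : e ⬝ᵥ (G.mulVec e) = μ * Δ := by
    rw [Matrix.dotProduct_mulVec, ← Matrix.mulVec_transpose, hg, smul_dotProduct, smul_eq_mul]
  have htr : (G 0 0 + G 1 1 + G 2 2) = F1 (p, q) + μ := by
    have h3 := tr_id G κ c e
    rw [← he, ← hΔ, ← hp, ← hq, hGe] at h3
    rw [hF1]
    simp only
    field_simp
    linarith
  have hpe : p ⬝ᵥ e = 0 := by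
    rw [dotProduct_comm, hp, Matrix.dotProduct_mulVec, ← Matrix.mulVec_transpose, hg,
      smul_dotProduct, dotProduct_comm, hκe, smul_zero]
  have hqe : q ⬝ᵥ e = 0 := by
    rw [dotProduct_comm, hq, Matrix.dotProduct_mulVec, ← Matrix.mulVec_transpose, hg,
      smul_dotProduct, dotProduct_comm, hce, smul_zero]
  have hs2 : ((G 0 0 * G 1 1 - G 0 1 * G 1 0) + (G 0 0 * G 2 2 - G 0 2 * G 2 0) +
      (G 1 1 * G 2 2 - G 1 2 * G 2 1)) = μ⁻¹ + μ * F1 (p, q) := by
    have h3 := s2_id G κ c e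
    rw [← he, ← hΔ, ← hp, ← hq] at h3
    have h4 := par_id e p c (G.mulVec e) hpe hce
    have h5 := par_id e κ q (G.mulVec e) hκe hqe
    rw [hGe, ← hΔ] at h4 h5
    have h4' : crossProduct p c ⬝ᵥ G.mulVec e = (crossProduct p c ⬝ᵥ e) * μ := by
      have := mul_right_cancel₀ hee.ne' (h4.trans (mul_assoc _ _ _).symm)
      exact this
    have h5' : crossProduct κ q ⬝ᵥ G.mulVec e = (crossProduct κ q ⬝ᵥ e) * μ := by
      have := mul_right_cancel₀ hee.ne' (h5.trans (mul_assoc _ _ _).symm)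
      exact this
    have h6 : crossProduct p q ⬝ᵥ e = μ⁻¹ * Δ := by
      rw [hcross, smul_dotProduct, smul_eq_mul]
    rw [h4', h5', h6] at h3
    rw [hF1]
    simp only
    have h7 := (eq_div_iff hee.ne').2 h3
    rw [h7]
    field_simp
    ring
  have ht3 : g 0 0 + g 1 1 + g 2 2 = 3 := by
    have e1 : (G 0 0 + G 1 1 + G 2 2) = ((g 0 0 + g 1 1 + g 2 2 : ℤ) : ℝ) := by
      rw [hG]
      simp [Matrix.map_apply]
    rw [e1] at htr
    have l1 : (2:ℝ) < ((g 0 0 + g 1 1 + g 2 2 : ℤ) : ℝ) := by rw [htr]; linarith [b1.1]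
    have l2 : ((g 0 0 + g 1 1 + g 2 2 : ℤ) : ℝ) < 4 := by rw [htr]; linarith [b1.2]
    have l1' : (2:ℤ) < g 0 0 + g 1 1 + g 2 2 := by exact_mod_cast l1
    have l2' : g 0 0 + g 1 1 + g 2 2 < 4 := by exact_mod_cast l2
    omega
  have hs3 : (g 0 0 * g 1 1 - g 0 1 * g 1 0) + (g 0 0 * g 2 2 - g 0 2 * g 2 0) +
      (g 1 1 * g 2 2 - g 1 2 * g 2 1) = 3 := by
    set S := (g 0 0 * g 1 1 - g 0 1 * g 1 0) + (g 0 0 * g 2 2 - g 0 2 * g 2 0) +
      (g 1 1 * g 2 2 - g 1 2 * g 2 1) with hS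
    have e1 : ((G 0 0 * G 1 1 - G 0 1 * G 1 0) + (G 0 0 * G 2 2 - G 0 2 * G 2 0) +
      (G 1 1 * G 2 2 - G 1 2 * G 2 1)) = ((S : ℤ) : ℝ) := by
      rw [hG, hS]
      simp [Matrix.map_apply]
    rw [e1] at hs2
    have l1 : (2:ℝ) < (S : ℝ) := by
      rw [hs2]
      nlinarith [b1.1, b1.2, b2.1, b2.2]
    have l2 : (S : ℝ) < 4 := by
      rw [hs2]
      nlinarith [b1.1, b1.2, b2.1, b2.2]
    have l1' : (2:ℤ) < S := by exact_mod_cast l1
    have l2' : S < 4 := by exact_mod_cast l2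
    omega
  exact unip_of_inv g ht3 hs3 hdet




/-- Gram identity for the inverse of a symmetric matrix. -/
theorem cross_inv (Q : Matrix (Fin 3) (Fin 3) ℝ) (hs : Qᵀ = Q) (hd : Q.det ≠ 0)
    (κ c : Fin 3 → ℝ) :
    (crossProduct κ c ⬝ᵥ (Q⁻¹).mulVec (crossProduct κ c)) * Q.det =
      (κ ⬝ᵥ Q.mulVec κ) * (c ⬝ᵥ Q.mulVec c) - (κ ⬝ᵥ Q.mulVec c) ^ 2 := by
  have h01 : Q 1 0 = Q 0 1 := by
    have := congrFun (congrFun hs 0) 1
    simpa [Matrix.transpose_apply] using this
  have h02 : Q 2 0 = Q 0 2 := by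
    have := congrFun (congrFun hs 0) 2
    simpa [Matrix.transpose_apply] using this
  have h12 : Q 2 1 = Q 1 2 := by
    have := congrFun (congrFun hs 1) 2
    simpa [Matrix.transpose_apply] using this
  have hinv : Q⁻¹ = (Q.det)⁻¹ • Q.adjugate := by
    rw [Matrix.inv_def, Ring.inverse_eq_inv']
  have h1 : (crossProduct κ c ⬝ᵥ (Q⁻¹).mulVec (crossProduct κ c)) * Q.det =
      crossProduct κ c ⬝ᵥ (Q.adjugate).mulVec (crossProduct κ c) := by
    rw [hinv, Matrix.smul_mulVec, dotProduct_smul, smul_eq_mul]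
    field_simp
  rw [h1, Matrix.adjugate_fin_three]
  simp only [cross_apply, Matrix.mulVec, dotProduct, Fin.sum_univ_three, Matrix.cons_val,
    Matrix.of_apply, Matrix.cons_val', h01, h02, h12, Fin.isValue]
  ring

/-- A nontrivial unipotent integer matrix preserving the plane orthogonal to `a` fixes a nonzero
integer vector in this plane. -/
theorem exists_int_in_plane {a : Fin 3 → ℝ} (ha : a ≠ 0) {g : Matrix (Fin 3) (Fin 3) ℤ} {μ : ℝ}
    (hg : ((g.map (Int.cast : ℤ → ℝ))ᵀ).mulVec a = μ • a) (hu : (g - 1) ^ 3 = 0) (hne : g ≠ 1) :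
    ∃ k : Fin 3 → ℤ, k ≠ 0 ∧ g.mulVec k = k ∧ rv k ⬝ᵥ a = 0 := by
  set N := g - 1 with hN
  set NR := N.map (Int.cast : ℤ → ℝ) with hNR
  have hNRe : NR = g.map (Int.cast : ℤ → ℝ) - 1 := by
    rw [hNR, hN]
    ext i j
    simp only [Matrix.map_apply, Matrix.sub_apply, Matrix.one_apply]
    split_ifs <;> simp
  have h1 : NRᵀ.mulVec a = (μ - 1) • a := by
    rw [hNRe, Matrix.transpose_sub, Matrix.transpose_one, Matrix.sub_mulVec, hg,
      Matrix.one_mulVec, sub_smul, one_smul]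
  have h3 : NR ^ 3 = 0 := by
    have := congrArg (fun M : Matrix (Fin 3) (Fin 3) ℤ => (Int.castRingHom ℝ).mapMatrix M) hu
    simp only [map_pow, map_zero] at this
    exact this
  have h4 : (NRᵀ ^ 3).mulVec a = ((μ - 1) ^ 3) • a := by
    rw [pow_succ, pow_two, ← Matrix.mulVec_mulVec, h1, Matrix.mulVec_smul, ← Matrix.mulVec_mulVec,
      h1, Matrix.mulVec_smul, h1, smul_smul, smul_smul]
    congr 1
    ring
  have h5 : ((μ - 1) ^ 3) • a = 0 := by
    rw [← h4, ← Matrix.transpose_pow, h3, Matrix.transpose_zero, Matrix.zero_mulVec]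
  have hμ : μ - 1 = 0 := by
    rcases smul_eq_zero.1 h5 with h | h
    · exact pow_eq_zero_iff (by norm_num) |>.1 h
    · exact absurd h ha
  have h6 : NRᵀ.mulVec a = 0 := by rw [h1, hμ, zero_smul]
  have h7 : ∀ v : Fin 3 → ℤ, rv (N.mulVec v) ⬝ᵥ a = 0 := by
    intro v
    have : rv (N.mulVec v) = NR.mulVec (rv v) := by
      funext i
      simp only [rv, hNR, Matrix.mulVec, dotProduct, Matrix.map_apply]
      push_cast
      rfl
    rw [this, dotProduct_comm, Matrix.dotProduct_mulVec, ← Matrix.mulVec_transpose, h6,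
      zero_dotProduct]
  have hN0 : N ≠ 0 := fun h => hne (sub_eq_zero.1 h)
  -- a nonzero matrix `N * M` with `N * (N * M) = 0`
  obtain ⟨M, hM0, hM⟩ : ∃ M : Matrix (Fin 3) (Fin 3) ℤ, N * M ≠ 0 ∧ N * (N * M) = 0 := by
    by_cases h2 : N * N = 0
    · exact ⟨1, by simpa using hN0, by simpa using h2⟩
    · refine ⟨N, h2, ?_⟩
      rw [← mul_assoc, ← pow_two, ← pow_succ]
      exact hu
  obtain ⟨i, j, hij⟩ : ∃ i j, (N * M) i j ≠ 0 := by
    by_contra hcon
    push Not at hcon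
    exact hM0 (by ext i j; exact hcon i j)
  refine ⟨N.mulVec (fun r => M r j), ?_, ?_, h7 _⟩
  · intro h0
    exact hij (congrFun h0 i)
  · have : N.mulVec (N.mulVec (fun r => M r j)) = 0 := by
      funext r
      have := congrFun (congrFun hM r) j
      exact this
    have hg1 : g = N + 1 := by rw [hN]; abel
    rw [hg1, Matrix.add_mulVec, this, Matrix.one_mulVec, zero_add]

/-- A nontrivial integer matrix which is the identity on the plane orthogonal to `a` forces `a` to be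
proportional to an integer vector. -/
theorem rational_of_fixed {a : Fin 3 → ℝ} {g : Matrix (Fin 3) (Fin 3) ℤ} (hne : g ≠ 1)
    (h : ∀ v : Fin 3 → ℝ, v ⬝ᵥ a = 0 → (g.map (Int.cast : ℤ → ℝ)).mulVec v = v) :
    ∃ ρ : Fin 3 → ℤ, ρ ≠ 0 ∧ ∃ t : ℝ, rv ρ = t • a := by
  obtain ⟨i, j, hij⟩ : ∃ i j, (g - 1) i j ≠ 0 := by
    by_contra hcon
    push Not at hcon
    exact hne (sub_eq_zero.1 (by ext i j; exact hcon i j))
  have hρ : ∀ v : Fin 3 → ℝ, v ⬝ᵥ a = 0 → rv ((g - 1) i) ⬝ᵥ v = 0 := by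
    intro v hv
    have h1 := congrFun (h v hv) i
    have h2 : rv ((g - 1) i) ⬝ᵥ v = (g.map (Int.cast : ℤ → ℝ)).mulVec v i - v i := by
      have : rv ((g - 1) i) = fun l => ((g i l : ℝ)) - (1 : Matrix (Fin 3) (Fin 3) ℝ) i l := by
        funext l
        simp only [rv, Matrix.sub_apply, Matrix.one_apply]
        split_ifs <;> simp
      rw [this]
      have h3 : v i = ((1 : Matrix (Fin 3) (Fin 3) ℝ).mulVec v) i := by rw [Matrix.one_mulVec]
      rw [h3]
      simp only [Matrix.mulVec, dotProduct, Matrix.map_apply, ← Finset.sum_sub_distrib, sub_mul]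
    rw [h2, h1, sub_self]
  refine ⟨(g - 1) i, fun h0 => hij (congrFun h0 j), ?_⟩
  have ha : a ⬝ᵥ a ≠ 0 := by
    intro h0
    have ha0 : a = 0 := dotProduct_self_eq_zero.1 h0
    have h1 := hρ (rv ((g - 1) i)) (by rw [ha0, dotProduct_zero])
    have h2 := dotProduct_self_eq_zero.1 h1
    have h3 := congrFun h2 j
    simp only [rv, Pi.zero_apply, Int.cast_eq_zero] at h3
    exact hij h3
  set t := (rv ((g - 1) i) ⬝ᵥ a) / (a ⬝ᵥ a) with ht
  refine ⟨t, ?_⟩
  have hv : (rv ((g - 1) i) - t • a) ⬝ᵥ a = 0 := by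
    rw [sub_dotProduct, smul_dotProduct, smul_eq_mul, ht]
    field_simp
    ring
  have h1 := hρ _ hv
  have h2 : (rv ((g - 1) i) - t • a) ⬝ᵥ (rv ((g - 1) i) - t • a) = 0 := by
    nth_rewrite 1 [sub_dotProduct]
    rw [h1, smul_dotProduct, dotProduct_comm a, hv]
    simp
  exact sub_eq_zero.1 (dotProduct_self_eq_zero.1 h2)




/-- A curve of directions in a rational plane which is not constant passes through a rational
direction. -/
theorem exists_rational_on_curve {f : ℝ → Fin 3 → ℝ} {a b p q : ℝ}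
    (hf : ContinuousOn f (Set.Ioo a b)) (hp : p ∈ Set.Ioo a b) (hq : q ∈ Set.Ioo a b)
    (hpq : crossProduct (f p) (f q) ≠ 0) (ρ : Fin 3 → ℤ) (hρ : ρ ≠ 0)
    (h : ∀ t ∈ Set.Ioo a b, rv ρ ⬝ᵥ f t = 0) :
    ∃ t ∈ Set.Ioo a b, ∃ k : Fin 3 → ℤ, k ≠ 0 ∧ ∃ s : ℝ, f t = s • rv k := by
  set w := crossProduct (f p) (f q) with hw
  have hww : 0 < w ⬝ᵥ w := by
    rcases lt_or_eq_of_le (show 0 ≤ w ⬝ᵥ w from Finset.sum_nonneg fun i _ => mul_self_nonneg (w i)) with h1 | h1
    · exact h1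
    · exact absurd (dotProduct_self_eq_zero.1 h1.symm) hpq
  -- open condition
  have hopen : IsOpen {τ : Fin 3 → ℝ | 0 < τ ⬝ᵥ f p ∧ τ ⬝ᵥ f q < 0} := by
    have c1 : Continuous fun τ : Fin 3 → ℝ => τ ⬝ᵥ f p := by
      simp only [dotProduct]
      fun_prop
    have c2 : Continuous fun τ : Fin 3 → ℝ => τ ⬝ᵥ f q := by
      simp only [dotProduct]
      fun_prop
    exact (isOpen_lt continuous_const c1).inter (isOpen_lt c2 continuous_const)
  have hnon : ({τ : Fin 3 → ℝ | 0 < τ ⬝ᵥ f p ∧ τ ⬝ᵥ f q < 0}).Nonempty := by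
    refine ⟨crossProduct (f p + f q) w, ?_⟩
    have e1 : crossProduct (f p + f q) w ⬝ᵥ f p = w ⬝ᵥ w := by
      rw [hw]
      simp only [cross_apply, dotProduct, Fin.sum_univ_three, Matrix.cons_val, Pi.add_apply]
      ring
    have e2 : crossProduct (f p + f q) w ⬝ᵥ f q = -(w ⬝ᵥ w) := by
      rw [hw]
      simp only [cross_apply, dotProduct, Fin.sum_univ_three, Matrix.cons_val, Pi.add_apply]
      ring
    refine ⟨?_, ?_⟩
    · show 0 < _
      rw [e1]; exact hww
    · show _ < 0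
      rw [e2]; linarith
  have hdense : Dense (Set.pi Set.univ (fun _ : Fin 3 => Set.range ((↑) : ℚ → ℝ))) :=
    dense_pi _ (fun i _ => Rat.denseRange_cast)
  obtain ⟨τr, hτ1, hτ2⟩ := hdense.inter_open_nonempty _ hopen hnon
  have hτ3 : ∀ i, ∃ r : ℚ, (r : ℝ) = τr i := fun i => hτ2 i (Set.mem_univ i)
  choose r hr using hτ3
  obtain ⟨D, hD, τ, hτ⟩ := clear_den r
  have hDr : (0 : ℝ) < D := by exact_mod_cast hD
  have hτR : rv τ = (D : ℝ) • τr := by
    funext i
    have := hτ i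
    have h2 : ((τ i : ℚ) : ℝ) = ((D * r i : ℚ) : ℝ) := by rw [this]
    push_cast at h2
    rw [hr i] at h2
    exact h2
  have hτp : 0 < rv τ ⬝ᵥ f p := by
    rw [hτR, smul_dotProduct, smul_eq_mul]
    exact mul_pos hDr hτ1.1
  have hτq : rv τ ⬝ᵥ f q < 0 := by
    rw [hτR, smul_dotProduct, smul_eq_mul]
    exact mul_neg_of_pos_of_neg hDr hτ1.2
  have hcont : ContinuousOn (fun t => rv τ ⬝ᵥ f t) (Set.Ioo a b) := by
    have c2 : Continuous fun v : Fin 3 → ℝ => rv τ ⬝ᵥ v := by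
      simp only [dotProduct]
      fun_prop
    exact c2.comp_continuousOn hf
  obtain ⟨t, ht, ht0⟩ := isPreconnected_Ioo.intermediate_value hq hp hcont ⟨hτq.le, hτp.le⟩
  have ht0' : rv τ ⬝ᵥ f t = 0 := ht0
  refine ⟨t, ht, crossProduct ρ τ, ?_, ?_⟩
  · intro h0
    have h1 : crossProduct (rv ρ) (rv τ) = 0 := by
      have e : crossProduct (rv ρ) (rv τ) = rv (crossProduct ρ τ) := by
        funext i
        fin_cases i <;> simp [cross_apply, rv]
      rw [e, h0]
      funext i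
      simp [rv]
    have h2 : (rv ρ ⬝ᵥ rv ρ) * (rv τ ⬝ᵥ f p) =
        (rv ρ ⬝ᵥ rv τ) * (rv ρ ⬝ᵥ f p) - crossProduct (rv ρ) (crossProduct (rv ρ) (rv τ)) ⬝ᵥ f p := by
      simp only [cross_apply, dotProduct, Fin.sum_univ_three, Matrix.cons_val]
      ring
    rw [h1, h p hp, map_zero, zero_dotProduct, mul_zero, sub_zero] at h2
    rcases mul_eq_zero.1 h2 with h3 | h3
    · have := dotProduct_self_eq_zero.1 h3
      exact hρ (funext fun i => by
        have := congrFun this i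
        simpa [rv] using this)
    · exact hτp.ne' h3
  · set k := crossProduct ρ τ with hk
    have hkr : rv k = crossProduct (rv ρ) (rv τ) := by
      rw [hk]
      funext i
      fin_cases i <;> simp [cross_apply, rv]
    have hk0 : rv k ⬝ᵥ rv k ≠ 0 := by
      intro h3
      have h4 := dotProduct_self_eq_zero.1 h3
      rw [hkr] at h4
      have h2 : (rv ρ ⬝ᵥ rv ρ) * (rv τ ⬝ᵥ f p) =
          (rv ρ ⬝ᵥ rv τ) * (rv ρ ⬝ᵥ f p) -
            crossProduct (rv ρ) (crossProduct (rv ρ) (rv τ)) ⬝ᵥ f p := by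
        simp only [cross_apply, dotProduct, Fin.sum_univ_three, Matrix.cons_val]
        ring
      rw [h4, h p hp, map_zero, zero_dotProduct, mul_zero, sub_zero] at h2
      rcases mul_eq_zero.1 h2 with h3 | h3
      · have := dotProduct_self_eq_zero.1 h3
        exact hρ (funext fun i => by
          have := congrFun this i
          simpa [rv] using this)
      · exact hτp.ne' h3
    refine ⟨(f t ⬝ᵥ rv k) / (rv k ⬝ᵥ rv k), ?_⟩
    have h5 : crossProduct (f t) (rv k) = 0 := by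
      have e : crossProduct (f t) (rv k) = (rv τ ⬝ᵥ f t) • rv ρ - (rv ρ ⬝ᵥ f t) • rv τ := by
        rw [hkr]
        funext i
        fin_cases i <;> simp [cross_apply, dotProduct, Fin.sum_univ_three] <;> ring
      rw [e, ht0', h t ht, zero_smul, zero_smul, sub_zero]
    have h6 : (rv k ⬝ᵥ rv k) • f t = (f t ⬝ᵥ rv k) • rv k + crossProduct (rv k) (crossProduct (f t) (rv k)) := by
      funext i
      fin_cases i <;> simp [cross_apply, dotProduct, Fin.sum_univ_three] <;> ring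
    rw [h5, map_zero, add_zero] at h6
    rw [div_eq_inv_mul, mul_smul, ← h6, smul_smul, inv_mul_cancel₀ hk0, one_smul]

end Pool.Agent.JobAlg
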