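import Pool.Agent.TH806.LK.Defs

set_option autoImplicit false

/-!
LK project, job LOC: local estimates for a block.
-/

namespace Pool.Agent.TH811.LK_LOC

open Finset Filter Topology MeasureTheory
open Pool.Agent.W184.NZ
open Pool.Agent.TH806
open Pool.Agent.TH806.LK

noncomputable section

/-! ### the truncated exponentials -/

lemma NC_eq (K : ℕ) (a z : ℂ) : NC K a z = ∑ k ∈ range (K + 1), (a * z) ^ k / (k.factorial : ℂ) := by
  unfold NC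
  refine Finset.sum_congr rfl fun k _ => ?_
  rw [mul_pow]; ring

lemma NC_norm (K : ℕ) (a z : ℂ) : ‖NC K a z‖ ≤ Real.exp (‖a‖ * ‖z‖) := by
  rw [NC_eq]
  calc ‖∑ k ∈ range (K + 1), (a * z) ^ k / (k.factorial : ℂ)‖
      ≤ ∑ k ∈ range (K + 1), ‖(a * z) ^ k / (k.factorial : ℂ)‖ := norm_sum_le _ _
    _ = ∑ k ∈ range (K + 1), (‖a‖ * ‖z‖) ^ k / (k.factorial : ℝ) := by
        refine Finset.sum_congr rfl fun k _ => ?_
        rw [norm_div, norm_pow, norm_mul, Complex.norm_natCast]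
    _ ≤ _ := Real.sum_le_exp_of_nonneg (by positivity) _

lemma exp_norm (a z : ℂ) : ‖Complex.exp (a * z)‖ ≤ Real.exp (‖a‖ * ‖z‖) := by
  rw [Complex.norm_exp, ← norm_mul]
  exact Real.exp_le_exp.mpr (Complex.re_le_norm _)

lemma tail (n R : ℕ) (hn : 1 ≤ n) (hR : 1 ≤ R) (x : ℂ) (hx : ‖x‖ ≤ n * R) :
    ‖Complex.exp x - ∑ m ∈ range (20 * n * R + 1), x ^ m / (m.factorial : ℂ)‖ ≤ Real.exp (-(R : ℝ)) := by
  have hnR : (1:ℝ) ≤ n := by exact_mod_cast hn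
  have hRR : (1:ℝ) ≤ R := by exact_mod_cast hR
  have hP : (R:ℝ) ≤ n * R := by nlinarith
  have hP1 : (1:ℝ) ≤ n * R := by linarith
  set K := 20 * n * R + 1 with hK
  have hKr : (K:ℝ) = 20 * (n * R) + 1 := by rw [hK]; push_cast; ring
  have h1 := Complex.exp_bound' (x := x) (n := K) (by
    rw [div_le_iff₀ (by positivity)]
    push_cast
    rw [hKr]
    linarith)
  refine h1.trans ?_
  have h2 := Real.pow_div_factorial_le_exp (x := 20 * (n * R : ℝ)) (by positivity) K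
  have h3 : ‖x‖ ^ K / (K.factorial : ℝ) ≤ (1 / 20) ^ K * Real.exp (20 * (n * R : ℝ)) := by
    calc ‖x‖ ^ K / (K.factorial : ℝ) ≤ (n * R : ℝ) ^ K / (K.factorial : ℝ) := by gcongr
      _ = (1 / 20) ^ K * ((20 * (n * R : ℝ)) ^ K / (K.factorial : ℝ)) := by
          rw [mul_pow 20]
          rw [one_div, inv_pow]
          field_simp
      _ ≤ _ := by gcongr
  have h4 : ((1:ℝ) / 20) ^ K ≤ Real.exp (-(2 * K : ℝ)) := by
    have e1 : (1:ℝ) / 20 ≤ Real.exp (-2) := by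
      rw [Real.exp_neg, one_div]
      apply inv_anti₀ (Real.exp_pos _)
      have := Real.exp_one_lt_d9
      have e2 : Real.exp 2 = Real.exp 1 * Real.exp 1 := by rw [← Real.exp_add]; norm_num
      rw [e2]
      nlinarith [Real.exp_pos 1]
    calc ((1:ℝ) / 20) ^ K ≤ Real.exp (-2) ^ K := by gcongr
      _ = Real.exp (-(2 * K : ℝ)) := by rw [← Real.exp_nat_mul]; ring_nf
  have h5 : ‖x‖ ^ K / (K.factorial : ℝ) ≤ Real.exp (-(20 * (n * R : ℝ)) - 2) := by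
    calc _ ≤ (1 / 20) ^ K * Real.exp (20 * (n * R : ℝ)) := h3
      _ ≤ Real.exp (-(2 * K : ℝ)) * Real.exp (20 * (n * R : ℝ)) := by gcongr
      _ = _ := by rw [← Real.exp_add, hKr]; ring_nf
  have h6 : Real.exp (-(20 * (n * R : ℝ)) - 2) ≤ Real.exp (-(R : ℝ) - 1) :=
    Real.exp_le_exp.mpr (by nlinarith)
  have h7 : Real.exp (-(R : ℝ) - 1) = Real.exp (-(R:ℝ)) * Real.exp (-1) := by
    rw [← Real.exp_add]; ring_nf
  have h8 : Real.exp (-1) ≤ 1 / 2 := by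
    rw [Real.exp_neg, one_div]
    apply inv_anti₀ (by norm_num)
    have := Real.exp_one_gt_d9
    linarith
  have h9 := Real.exp_pos (-(R:ℝ))
  nlinarith

/-- approximation of `X` by `Y` -/
def Ap (m d : ℝ) (X Y : ℂ) : Prop := ‖X‖ ≤ m ∧ ‖Y‖ ≤ m ∧ ‖X - Y‖ ≤ d * m

lemma Ap.mul {m₁ m₂ d₁ d₂ : ℝ} {X₁ X₂ Y₁ Y₂ : ℂ} (h₁ : Ap m₁ d₁ X₁ Y₁) (h₂ : Ap m₂ d₂ X₂ Y₂) :
    Ap (m₁ * m₂) (d₁ + d₂) (X₁ * X₂) (Y₁ * Y₂) := by
  obtain ⟨a1, b1, c1⟩ := h₁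
  obtain ⟨a2, b2, c2⟩ := h₂
  have hm1 : 0 ≤ m₁ := (norm_nonneg _).trans a1
  have hm2 : 0 ≤ m₂ := (norm_nonneg _).trans a2
  have hd1 : 0 ≤ d₁ * m₁ := (norm_nonneg _).trans c1
  refine ⟨?_, ?_, ?_⟩
  · rw [norm_mul]; gcongr
  · rw [norm_mul]; gcongr
  · have e : X₁ * X₂ - Y₁ * Y₂ = (X₁ - Y₁) * X₂ + Y₁ * (X₂ - Y₂) := by ring
    rw [e]
    refine (norm_add_le _ _).trans ?_
    rw [norm_mul, norm_mul]
    have e1 : ‖X₁ - Y₁‖ * ‖X₂‖ ≤ (d₁ * m₁) * m₂ := by gcongr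
    have e2 : ‖Y₁‖ * ‖X₂ - Y₂‖ ≤ m₁ * (d₂ * m₂) := by gcongr
    linarith [e1, e2, show (d₁ + d₂) * (m₁ * m₂) = (d₁ * m₁) * m₂ + m₁ * (d₂ * m₂) by ring]

lemma Ap_NC (n R : ℕ) (hn : 1 ≤ n) (hR : 1 ≤ R) (a z : ℂ) (ha : ‖a‖ ≤ n) :
    Ap (Real.exp (‖a‖ * ‖z‖)) (2 * (Real.exp (-(R:ℝ)) * Real.exp ‖z‖)) (NC (20 * n * R) a z)
      (Complex.exp (a * z)) := by
  have h1 := NC_norm (20 * n * R) a z
  have h2 := exp_norm a z
  refine ⟨h1, h2, ?_⟩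
  have p1 := Real.exp_pos (‖a‖ * ‖z‖)
  have p2 := Real.exp_pos (-(R:ℝ))
  have p3 := Real.exp_pos ‖z‖
  have q1 : 1 ≤ Real.exp (‖a‖ * ‖z‖) := Real.one_le_exp (by positivity)
  have q3 : 1 ≤ Real.exp ‖z‖ := Real.one_le_exp (by positivity)
  rcases le_or_gt ‖z‖ R with h | h
  · have h3 := tail n R hn hR (a * z) (by rw [norm_mul]; gcongr)
    rw [← NC_eq] at h3
    rw [norm_sub_rev]
    refine h3.trans ?_
    have : Real.exp (-(R:ℝ)) * 1 ≤ Real.exp (-(R:ℝ)) * (Real.exp ‖z‖ * Real.exp (‖a‖ * ‖z‖)) := by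
      gcongr
      nlinarith
    nlinarith [mul_pos p2 (mul_pos p3 p1)]
  · refine (norm_sub_le _ _).trans ?_
    have h4 : 1 ≤ Real.exp (-(R:ℝ)) * Real.exp ‖z‖ := by
      rw [← Real.exp_add]
      exact Real.one_le_exp (by linarith)
    nlinarith

/-- the local factor and the exponential -/
lemma BF_ap (n R : ℕ) (hn : 1 ≤ n) (hR : 1 ≤ R) (a b θ₁ θ₂ : ℝ) (ha : |a| ≤ n) (hb : |b| ≤ n)
    (h1 : |θ₁| ≤ 1) (h2 : |θ₂| ≤ 1) (z : ℂ) :
    ‖BF (20 * n * R) a b θ₁ θ₂ z‖ ≤ Real.exp ((2 * n + 2) * ‖z‖) ∧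
    ‖BF (20 * n * R) a b θ₁ θ₂ z - Complex.exp ((a + ((θ₁ + θ₂ : ℝ) : ℂ) / 2 * Complex.I) * z +
      (b + ((θ₁ + θ₂ : ℝ) : ℂ) / 2 * Complex.I) * starRingEnd ℂ z)‖ ≤
      12 * Real.exp (-(R:ℝ)) * Real.exp ((2 * n + 3) * ‖z‖) := by
  have hnR : (1:ℝ) ≤ n := by exact_mod_cast hn
  have na : ‖(a:ℂ)‖ = |a| := by simp
  have nb : ‖(b:ℂ)‖ = |b| := by simp
  have nt1 : ‖(θ₁:ℂ) / 2 * Complex.I‖ = |θ₁| / 2 := by simp
  have nt2 : ‖(θ₂:ℂ) / 2 * Complex.I‖ = |θ₂| / 2 := by simp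
  have A1 := Ap_NC n R hn hR a z (by rw [na]; exact ha)
  have A2 := Ap_NC n R hn hR b (starRingEnd ℂ z) (by rw [nb]; exact hb)
  have A3 := Ap_NC n R hn hR ((θ₁:ℂ) / 2 * Complex.I) z (by rw [nt1]; linarith)
  have A4 := Ap_NC n R hn hR ((θ₁:ℂ) / 2 * Complex.I) (starRingEnd ℂ z) (by rw [nt1]; linarith)
  have A5 := Ap_NC n R hn hR ((θ₂:ℂ) / 2 * Complex.I) z (by rw [nt2]; linarith)
  have A6 := Ap_NC n R hn hR ((θ₂:ℂ) / 2 * Complex.I) (starRingEnd ℂ z) (by rw [nt2]; linarith)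
  have A := (A1.mul A2).mul ((A3.mul A4).mul (A5.mul A6))
  rw [RCLike.norm_conj] at A
  rw [na, nb, nt1, nt2] at A
  have e1 : Complex.exp (a * z) * Complex.exp (b * starRingEnd ℂ z) *
      (Complex.exp ((θ₁:ℂ) / 2 * Complex.I * z) * Complex.exp ((θ₁:ℂ) / 2 * Complex.I * starRingEnd ℂ z) *
      (Complex.exp ((θ₂:ℂ) / 2 * Complex.I * z) * Complex.exp ((θ₂:ℂ) / 2 * Complex.I * starRingEnd ℂ z))) =
      Complex.exp ((a + ((θ₁ + θ₂ : ℝ) : ℂ) / 2 * Complex.I) * z +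
      (b + ((θ₁ + θ₂ : ℝ) : ℂ) / 2 * Complex.I) * starRingEnd ℂ z) := by
    simp only [← Complex.exp_add]
    congr 1
    push_cast
    ring
  rw [e1] at A
  have e2 : BF (20 * n * R) a b θ₁ θ₂ z = NC (20 * n * R) a z * NC (20 * n * R) b (starRingEnd ℂ z) *
      (NC (20 * n * R) ((θ₁:ℂ) / 2 * Complex.I) z * NC (20 * n * R) ((θ₁:ℂ) / 2 * Complex.I) (starRingEnd ℂ z) *
      (NC (20 * n * R) ((θ₂:ℂ) / 2 * Complex.I) z *
        NC (20 * n * R) ((θ₂:ℂ) / 2 * Complex.I) (starRingEnd ℂ z))) := rfl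
  rw [← e2] at A
  have e3 : Real.exp (|a| * ‖z‖) * Real.exp (|b| * ‖z‖) *
      (Real.exp (|θ₁| / 2 * ‖z‖) * Real.exp (|θ₁| / 2 * ‖z‖) *
      (Real.exp (|θ₂| / 2 * ‖z‖) * Real.exp (|θ₂| / 2 * ‖z‖))) ≤ Real.exp ((2 * n + 2) * ‖z‖) := by
    simp only [← Real.exp_add]
    apply Real.exp_le_exp.mpr
    have : |a| * ‖z‖ + |b| * ‖z‖ + (|θ₁| / 2 * ‖z‖ + |θ₁| / 2 * ‖z‖ + (|θ₂| / 2 * ‖z‖ + |θ₂| / 2 * ‖z‖)) =
      (|a| + |b| + |θ₁| + |θ₂|) * ‖z‖ := by ring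
    rw [this]
    refine mul_le_mul_of_nonneg_right ?_ (norm_nonneg _)
    linarith
  obtain ⟨B1, -, B3⟩ := A
  refine ⟨B1.trans e3, B3.trans ?_⟩
  calc _ ≤ (2 * (Real.exp (-(R:ℝ)) * Real.exp ‖z‖) + 2 * (Real.exp (-(R:ℝ)) * Real.exp ‖z‖) +
        (2 * (Real.exp (-(R:ℝ)) * Real.exp ‖z‖) + 2 * (Real.exp (-(R:ℝ)) * Real.exp ‖z‖) +
        (2 * (Real.exp (-(R:ℝ)) * Real.exp ‖z‖) + 2 * (Real.exp (-(R:ℝ)) * Real.exp ‖z‖)))) *
        Real.exp ((2 * n + 2) * ‖z‖) := by gcongr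
    _ = 12 * Real.exp (-(R:ℝ)) * (Real.exp ‖z‖ * Real.exp ((2 * n + 2) * ‖z‖)) := by ring
    _ = _ := by rw [← Real.exp_add]; ring_nf

/-- the factor with the large values -/
lemma BB_le (n R : ℕ) (hn : 1 ≤ n) (hR : 1 ≤ R) (a θ₁ θ₂ : ℝ) (ha : |a| ≤ n)
    (h1 : |θ₁| ≤ 1) (h2 : |θ₂| ≤ 1) (z : ℂ) :
    ‖BB (20 * n * R) R a θ₁ θ₂ z‖ ≤ Real.exp (-(R:ℝ)) * Real.exp ((2 * n + 4) * ‖z‖) := by
  have hRR : (1:ℝ) ≤ R := by exact_mod_cast hR
  have A := (BF_ap n R hn hR a a θ₁ θ₂ ha ha h1 h2 z).1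
  unfold BB
  rw [norm_mul, Complex.norm_real, Real.norm_of_nonneg (by positivity)]
  have h3 : ‖z‖ / R ≤ Real.exp (‖z‖ / R - 1) := by
    have := Real.add_one_le_exp (‖z‖ / R - 1)
    linarith
  have h4 : (‖z‖ / R) ^ (2 * R) ≤ Real.exp (2 * ‖z‖ - 2 * R) := by
    calc (‖z‖ / R) ^ (2 * R) ≤ Real.exp (‖z‖ / R - 1) ^ (2 * R) := by gcongr
      _ = Real.exp (2 * ‖z‖ - 2 * R) := by
          rw [← Real.exp_nat_mul]
          congr 1
          push_cast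
          field_simp
  calc _ ≤ Real.exp ((2 * n + 2) * ‖z‖) * Real.exp (2 * ‖z‖ - 2 * R) := by gcongr
    _ = Real.exp (-(2 * R:ℝ)) * Real.exp ((2 * n + 4) * ‖z‖) := by
        rw [← Real.exp_add, ← Real.exp_add]; ring_nf
    _ ≤ _ := by
        gcongr
        linarith

lemma TD_le (K : ℕ) (θ : ℝ) (hθ : |θ| ≤ 1) (z : ℂ) :
    ‖TD K θ z‖ ≤ Real.exp (-(K:ℝ)) * Real.exp (3 * ‖z‖) := by
  have nt : ‖(θ:ℂ) / 2 * Complex.I‖ ≤ 1 / 2 := by
    have : ‖(θ:ℂ) / 2 * Complex.I‖ = |θ| / 2 := by simp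
    rw [this]; linarith
  have k1 : ‖((θ:ℂ) / 2 * Complex.I) ^ K / (K.factorial : ℂ)‖ * ‖z‖ ^ K ≤
      Real.exp (-(K:ℝ)) * Real.exp (Real.exp 1 / 2 * ‖z‖) := by
    have h2 := Real.pow_div_factorial_le_exp (x := Real.exp 1 / 2 * ‖z‖) (by positivity) K
    calc ‖((θ:ℂ) / 2 * Complex.I) ^ K / (K.factorial : ℂ)‖ * ‖z‖ ^ K =
        ‖(θ:ℂ) / 2 * Complex.I‖ ^ K / (K.factorial : ℝ) * ‖z‖ ^ K := by
          rw [norm_div, norm_pow, Complex.norm_natCast]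
      _ ≤ (1 / 2) ^ K / (K.factorial : ℝ) * ‖z‖ ^ K := by gcongr
      _ = Real.exp (-(K:ℝ)) * ((Real.exp 1 / 2 * ‖z‖) ^ K / (K.factorial : ℝ)) := by
          have e1 : Real.exp (-(K:ℝ)) * Real.exp 1 ^ K = 1 := by
            rw [← Real.exp_nat_mul, ← Real.exp_add]; simp
          have e2 : (Real.exp 1 / 2 * ‖z‖) ^ K = Real.exp 1 ^ K * ((1 / 2) ^ K * ‖z‖ ^ K) := by
            rw [← mul_pow, ← mul_pow]; congr 1; ring
          rw [e2]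
          calc (1 / 2) ^ K / (K.factorial : ℝ) * ‖z‖ ^ K =
              1 * ((1 / 2) ^ K * ‖z‖ ^ K / (K.factorial : ℝ)) := by ring
            _ = Real.exp (-(K:ℝ)) * Real.exp 1 ^ K * ((1 / 2) ^ K * ‖z‖ ^ K / (K.factorial : ℝ)) := by rw [e1]
            _ = _ := by ring
      _ ≤ _ := by gcongr
  have n1 : ‖NC K ((θ:ℂ) / 2 * Complex.I) z‖ ≤ Real.exp (1 / 2 * ‖z‖) :=
    (NC_norm _ _ _).trans (Real.exp_le_exp.mpr (by gcongr))
  have n2 : ‖NC K ((θ:ℂ) / 2 * Complex.I) (starRingEnd ℂ z)‖ ≤ Real.exp (1 / 2 * ‖z‖) := by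
    refine (NC_norm _ _ _).trans (Real.exp_le_exp.mpr ?_)
    rw [RCLike.norm_conj]
    gcongr
  set D := Real.exp (-(K:ℝ)) * Real.exp (Real.exp 1 / 2 * ‖z‖) with hD
  have hD0 : 0 < D := by positivity
  have t1 : ‖z * (((θ:ℂ) / 2 * Complex.I) ^ K / (K.factorial : ℂ) * z ^ K) *
      NC K ((θ:ℂ) / 2 * Complex.I) (starRingEnd ℂ z)‖ ≤ ‖z‖ * D * Real.exp (1 / 2 * ‖z‖) := by
    rw [norm_mul, norm_mul, norm_mul, norm_pow]
    gcongr
  have t2 : ‖starRingEnd ℂ z * (((θ:ℂ) / 2 * Complex.I) ^ K / (K.factorial : ℂ) * (starRingEnd ℂ z) ^ K) *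
      NC K ((θ:ℂ) / 2 * Complex.I) z‖ ≤ ‖z‖ * D * Real.exp (1 / 2 * ‖z‖) := by
    rw [norm_mul, norm_mul, norm_mul, norm_pow, RCLike.norm_conj]
    gcongr
  unfold TD
  rw [norm_div]
  have h2n : ‖(2:ℂ)‖ = 2 := by simp
  rw [h2n]
  have t3 := (norm_add_le (z * (((θ:ℂ) / 2 * Complex.I) ^ K / (K.factorial : ℂ) * z ^ K) *
      NC K ((θ:ℂ) / 2 * Complex.I) (starRingEnd ℂ z)) (starRingEnd ℂ z * (((θ:ℂ) / 2 * Complex.I) ^ K /
      (K.factorial : ℂ) * (starRingEnd ℂ z) ^ K) * NC K ((θ:ℂ) / 2 * Complex.I) z)).trans (add_le_add t1 t2)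
  have hz : ‖z‖ ≤ Real.exp (‖z‖) := by
    have := Real.add_one_le_exp ‖z‖
    linarith
  calc _ ≤ (‖z‖ * D * Real.exp (1 / 2 * ‖z‖) + ‖z‖ * D * Real.exp (1 / 2 * ‖z‖)) / 2 := by gcongr
    _ = ‖z‖ * (D * Real.exp (1 / 2 * ‖z‖)) := by ring
    _ ≤ Real.exp ‖z‖ * (D * Real.exp (1 / 2 * ‖z‖)) := by gcongr
    _ = Real.exp (-(K:ℝ)) * Real.exp ((3 / 2 + Real.exp 1 / 2) * ‖z‖) := by
        rw [hD]
        have : Real.exp ((3 / 2 + Real.exp 1 / 2) * ‖z‖) =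
          Real.exp ‖z‖ * (Real.exp (Real.exp 1 / 2 * ‖z‖) * Real.exp (1 / 2 * ‖z‖)) := by
          rw [← Real.exp_add, ← Real.exp_add]; ring_nf
        rw [this]; ring
    _ ≤ _ := by
        gcongr
        have := Real.exp_one_lt_d9
        linarith

/-- the factor with two defects -/
lemma BE_le (n R : ℕ) (hn : 1 ≤ n) (hR : 1 ≤ R) (a θ₁ θ₂ : ℝ) (ha : |a| ≤ n)
    (h1 : |θ₁| ≤ 1) (h2 : |θ₂| ≤ 1) (z : ℂ) :
    ‖BE (20 * n * R) a θ₁ θ₂ z‖ ≤ Real.exp (-(R:ℝ)) * Real.exp ((2 * n + 6) * ‖z‖) := by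
  have hRR : (1:ℝ) ≤ R := by exact_mod_cast hR
  have hnR : (1:ℝ) ≤ n := by exact_mod_cast hn
  have na : ‖(a:ℂ)‖ ≤ n := by simpa using ha
  have n1 : ‖NC (20 * n * R) a z‖ ≤ Real.exp (n * ‖z‖) :=
    (NC_norm _ _ _).trans (Real.exp_le_exp.mpr (by gcongr))
  have n2 : ‖NC (20 * n * R) a (starRingEnd ℂ z)‖ ≤ Real.exp (n * ‖z‖) := by
    refine (NC_norm _ _ _).trans (Real.exp_le_exp.mpr ?_)
    rw [RCLike.norm_conj]
    gcongr
  have t1 := TD_le (20 * n * R) θ₁ h1 z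
  have t2 := TD_le (20 * n * R) θ₂ h2 z
  unfold BE
  rw [norm_mul, norm_mul, norm_mul]
  have hK : (R:ℝ) ≤ ((20 * n * R : ℕ) : ℝ) := by push_cast; nlinarith
  calc _ ≤ Real.exp (n * ‖z‖) * Real.exp (n * ‖z‖) *
        (Real.exp (-((20 * n * R : ℕ):ℝ)) * Real.exp (3 * ‖z‖) *
          (Real.exp (-((20 * n * R : ℕ):ℝ)) * Real.exp (3 * ‖z‖))) := by gcongr
    _ = Real.exp (-(2 * ((20 * n * R : ℕ):ℝ))) * Real.exp ((2 * n + 6) * ‖z‖) := by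
        simp only [← Real.exp_add]
        ring_nf
    _ ≤ _ := by
        gcongr
        linarith

/-! ### integrals -/

variable {w : ℕ × ℕ → ℝ} {κ₁ κ₂ Q C : ℝ} {I : Finset ℕ} {ν : Measure (ℂ × ℂ)}

lemma intg (h : LW w κ₁ κ₂ Q C I ν) {E : Type*} [NormedAddCommGroup E] (g : ℂ × ℂ → E)
    (hg : Continuous g) : Integrable g ν := by
  have := h.prob
  obtain ⟨B, hB⟩ := h.bdd
  have hc : IsCompact (Metric.closedBall (0:ℂ) B ×ˢ Metric.closedBall (0:ℂ) B) :=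
    (isCompact_closedBall _ _).prod (isCompact_closedBall _ _)
  obtain ⟨M, hM⟩ := hc.exists_bound_of_continuousOn hg.continuousOn
  refine Integrable.of_bound hg.aestronglyMeasurable M ?_
  filter_upwards [hB] with q hq
  exact hM q ⟨by simpa using hq.1, by simpa using hq.2⟩

lemma amgm (h : LW w κ₁ κ₂ Q C I ν) :
    ∫ q, ‖q.2‖ * Real.exp (Q / 2 * ‖q.1‖) ∂ν ≤ C * Real.exp (C * (vI I + uI I)) := by
  have i1 : Integrable (fun q : ℂ × ℂ => ‖q.2‖ ^ 2) ν := intg h _ (by fun_prop)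
  have i2 : Integrable (fun q : ℂ × ℂ => Real.exp (Q * ‖q.1‖)) ν := intg h _ (by fun_prop)
  have h1 : ∫ q, ‖q.2‖ * Real.exp (Q / 2 * ‖q.1‖) ∂ν ≤
      ∫ q, (‖q.2‖ ^ 2 + Real.exp (Q * ‖q.1‖)) / 2 ∂ν := by
    refine integral_mono (intg h _ (by fun_prop)) ((i1.add i2).div_const 2) fun q => ?_
    have e : Real.exp (Q * ‖q.1‖) = Real.exp (Q / 2 * ‖q.1‖) ^ 2 := by
      rw [← Real.exp_nat_mul]; congr 1; push_cast; ring
    simp only [e]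
    nlinarith [sq_nonneg (‖q.2‖ - Real.exp (Q / 2 * ‖q.1‖))]
  rw [integral_div, integral_add i1 i2] at h1
  have := h.dsq
  have := h.expn
  linarith

lemma est (n : ℕ) (h : LW w κ₁ κ₂ (8 * n + 8) C I ν) (f : ℂ → ℂ) (A : ℝ) (hA : 0 ≤ A)
    (hf : ∀ z, ‖f z‖ ≤ A * Real.exp ((4 * n + 4) * ‖z‖)) :
    ‖∫ q, q.2 * f q.1 ∂ν‖ ≤ A * (C * Real.exp (C * (vI I + uI I))) := by
  have h1 := amgm h
  have e : ((8 * n + 8 : ℝ)) / 2 = 4 * n + 4 := by ring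
  rw [e] at h1
  refine (norm_integral_le_of_norm_le (g := fun q => A * (‖q.2‖ * Real.exp ((4 * n + 4) * ‖q.1‖)))
    (intg h _ (by fun_prop)) (ae_of_all _ fun q => ?_)).trans ?_
  · rw [norm_mul]
    calc ‖q.2‖ * ‖f q.1‖ ≤ ‖q.2‖ * (A * Real.exp ((4 * n + 4) * ‖q.1‖)) := by
          gcongr; exact hf _
      _ = _ := by ring
  · rw [integral_const_mul]
    gcongr

theorem t_LOC : P_LOC := by
  intro n c C hn hc
  set D := |C| * Real.exp (|C| * (2 * c)) with hD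
  set E := Real.exp ((2 * (n + 1) + (n + 1) ^ 2) * c) * (|C| * Real.exp (|C| * c)) with hE
  have hD0 : 0 ≤ D := by positivity
  have hE0 : 0 ≤ E := by positivity
  refine ⟨12 * D + E + 1, by positivity, ?_⟩
  intro w κ₁ κ₂ I ν hk1 hk1' hk2 hk2' h hv hu R hR a b θ₁ θ₂ ha hb h1 h2
  have hnR : (1:ℝ) ≤ n := by exact_mod_cast hn
  have hv0 : 0 ≤ vI I := Finset.sum_nonneg fun p _ => by positivity
  have hu0 : 0 ≤ uI I := Finset.sum_nonneg fun p _ => by positivity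
  have hC : 0 ≤ C := by
    by_contra hneg
    have e1 := h.dsq
    have e2 : 0 ≤ ∫ q, ‖q.2‖ ^ 2 ∂ν := integral_nonneg fun q => by positivity
    have e3 := Real.exp_pos (C * (vI I + uI I))
    nlinarith
  have hCa : |C| = C := abs_of_nonneg hC
  rw [hCa] at hD hE
  have hDD : C * Real.exp (C * (vI I + uI I)) ≤ D := by
    rw [hD]
    gcongr
    linarith
  have hR0 := Real.exp_pos (-(R:ℝ))
  refine ⟨?_, ?_, ?_⟩
  · -- the main term
    set α : ℂ := a + ((θ₁ + θ₂ : ℝ) : ℂ) / 2 * Complex.I with hα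
    set β : ℂ := b + ((θ₁ + θ₂ : ℝ) : ℂ) / 2 * Complex.I with hβ
    have nth : ‖((θ₁ + θ₂ : ℝ) : ℂ) / 2 * Complex.I‖ ≤ 1 := by
      rw [norm_mul, norm_div, Complex.norm_real, Complex.norm_I, Real.norm_eq_abs]
      have := abs_add_le θ₁ θ₂
      simp only [Complex.norm_ofNat]
      linarith
    have nα : ‖α‖ ≤ n + 1 := by
      refine (norm_add_le _ _).trans ?_
      have : ‖(a:ℂ)‖ = |a| := by simp
      rw [this]; linarith
    have nβ : ‖β‖ ≤ n + 1 := by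
      refine (norm_add_le _ _).trans ?_
      have : ‖(b:ℂ)‖ = |b| := by simp
      rw [this]; linarith
    obtain ⟨ε, hε, hexp⟩ := h.exq α β (by linarith) (by linarith)
    set X : ℂ := (κ₁ * α + κ₂ * β + α * β) with hX
    have hex : ex κ₁ κ₂ a b (θ₁ + θ₂) = X := rfl
    rw [hex]
    have nX : ‖X‖ ≤ 2 * (n + 1) + (n + 1) ^ 2 := by
      refine (norm_add_le _ _).trans ?_
      have e1 : ‖(κ₁:ℂ) * α + κ₂ * β‖ ≤ 1 * (n + 1) + 1 * (n + 1) := by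
        refine (norm_add_le _ _).trans ?_
        rw [norm_mul, norm_mul, Complex.norm_real, Complex.norm_real, Real.norm_of_nonneg hk1,
          Real.norm_of_nonneg hk2]
        gcongr
      have e2 : ‖α * β‖ ≤ (n + 1) * (n + 1) := by
        rw [norm_mul]; gcongr
      nlinarith
    have A1 : ‖(∫ q, q.2 * BF (20 * n * R) a b θ₁ θ₂ q.1 ∂ν) - Complex.exp (X * vI I + ε)‖ ≤
        12 * D * Real.exp (-(R:ℝ)) := by
      rw [← hexp, ← integral_sub]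
      · have e1 := est n h (fun z => BF (20 * n * R) a b θ₁ θ₂ z -
          Complex.exp (α * z + β * starRingEnd ℂ z)) (12 * Real.exp (-(R:ℝ))) (by positivity) (fun z => by
            refine ((BF_ap n R hn hR a b θ₁ θ₂ ha hb h1 h2 z).2).trans ?_
            gcongr
            · linarith
            · norm_num)
        simp only [mul_sub] at e1
        refine e1.trans ?_
        calc _ ≤ 12 * Real.exp (-(R:ℝ)) * D := by gcongr
          _ = _ := by ring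
      · refine intg h _ ?_
        unfold LK.BF pf NC
        fun_prop
      · refine intg h _ ?_
        fun_prop
    have A2 : ‖Complex.exp (X * vI I + ε) - Complex.exp (X * vI I)‖ ≤ E * uI I := by
      rw [Complex.exp_add]
      have e1 : Complex.exp (X * vI I) * Complex.exp ε - Complex.exp (X * vI I) =
        Complex.exp (X * vI I) * (Complex.exp ε - 1) := by ring
      rw [e1, norm_mul]
      have e2 : ‖Complex.exp (X * vI I)‖ ≤ Real.exp ((2 * (n + 1) + (n + 1) ^ 2) * c) := by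
        refine (exp_norm _ _).trans (Real.exp_le_exp.mpr ?_)
        rw [Complex.norm_real, Real.norm_of_nonneg hv0]
        gcongr
      have e3 : ‖Complex.exp ε - 1‖ ≤ ‖ε‖ * Real.exp ‖ε‖ := by
        have := Complex.norm_exp_sub_sum_le_norm_mul_exp ε 1
        simpa using this
      have e4 : ‖ε‖ * Real.exp ‖ε‖ ≤ (C * uI I) * Real.exp (C * c) := by
        gcongr
        exact hε.trans (by gcongr)
      calc _ ≤ Real.exp ((2 * (n + 1) + (n + 1) ^ 2) * c) * ((C * uI I) * Real.exp (C * c)) := by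
            gcongr
            exact e3.trans e4
        _ = _ := by rw [hE]; ring
    have e5 : (∫ q, q.2 * BF (20 * n * R) a b θ₁ θ₂ q.1 ∂ν) - Complex.exp (X * vI I) =
        ((∫ q, q.2 * BF (20 * n * R) a b θ₁ θ₂ q.1 ∂ν) - Complex.exp (X * vI I + ε)) +
        (Complex.exp (X * vI I + ε) - Complex.exp (X * vI I)) := by ring
    rw [e5]
    refine (norm_add_le _ _).trans ((add_le_add A1 A2).trans ?_)
    nlinarith [mul_nonneg hD0 hu0, mul_nonneg hE0 hR0.le, mul_nonneg hD0 hR0.le, mul_nonneg hE0 hu0]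
  · have e1 := est n h (BB (20 * n * R) R a θ₁ θ₂) (Real.exp (-(R:ℝ))) (by positivity) (fun z => by
      refine (BB_le n R hn hR a θ₁ θ₂ ha h1 h2 z).trans ?_
      gcongr
      linarith)
    refine e1.trans ?_
    calc _ ≤ Real.exp (-(R:ℝ)) * D := by gcongr
      _ ≤ _ := by nlinarith [mul_nonneg hE0 hR0.le, mul_nonneg hD0 hR0.le]
  · have e1 := est n h (BE (20 * n * R) a θ₁ θ₂) (Real.exp (-(R:ℝ))) (by positivity) (fun z => by
      refine (BE_le n R hn hR a θ₁ θ₂ ha h1 h2 z).trans ?_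
      refine mul_le_mul_of_nonneg_left (Real.exp_le_exp.mpr
        (mul_le_mul_of_nonneg_right ?_ (norm_nonneg _))) hR0.le
      linarith)
    refine e1.trans ?_
    calc _ ≤ Real.exp (-(R:ℝ)) * D := by gcongr
      _ ≤ _ := by nlinarith [mul_nonneg hE0 hR0.le, mul_nonneg hD0 hR0.le]

end

end Pool.Agent.TH811.LK_LOC
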