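import Pool.Agent.TH672.Ext

/-!
# A short proof cannot use an axiom with a long chain of quantifiers
-/

set_option autoImplicit false

namespace Pool.Agent.TH672
open Form

namespace Gap

/-- the number of inner nodes of a formula -/
def nd : Form → ℕ
  | imp φ ψ => nd φ + nd ψ + 1
  | all _ φ => nd φ + 1
  | _ => 0

/-- one quantifier with its atom -/
inductive Link : Type
  | z (v : ℕ) : Link
  | a (v : ℕ) : Link
  | s (v : ℕ) : Link

/-- the quantified variable -/
def Link.v : Link → ℕ
  | .z v => v
  | .a v => v
  | .s v => v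

/-- the atom with the input variable `y` -/
def Link.atm : Link → ℕ → Form
  | .z v, _ => .zero v
  | .a v, y => .add y y v
  | .s v, y => .succ y v

/-- the chain with base `C` -/
def ch (C : Form) : List Link → ℕ → Form
  | [], _ => C
  | l :: L, y => all l.v ((l.atm y).imp (ch C L l.v))

theorem nd_atm (l : Link) (y : ℕ) : nd (l.atm y) = 0 := by
  cases l <;> rfl

theorem nd_ch (C : Form) : ∀ (L : List Link) (y : ℕ), nd (ch C L y) = 2 * L.length + nd C
  | [], y => by simp [ch]
  | l :: L, y => by
      simp only [ch, nd, nd_atm, nd_ch C L, List.length_cons]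
      omega

theorem len_atm (l : Link) (y : ℕ) : 4 ≤ (l.atm y).len := by
  cases l <;> simp only [Link.atm, Form.len, Form.str, varStr, List.length_append,
    List.length_cons, List.length_nil, List.length_replicate] <;> omega

theorem len_ch (C : Form) : ∀ (L : List Link) (y : ℕ), 11 * L.length + C.len ≤ (ch C L y).len
  | [], y => by simp [ch]
  | l :: L, y => by
      have h1 := len_ch C L l.v
      have h2 := len_atm l y
      simp only [ch, Ext.len_imp, Ext.len_all, List.length_cons]
      omega

/-- the last quantified variable -/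
def lastv : List Link → ℕ → ℕ
  | [], y => y
  | l :: L, _ => lastv L l.v

theorem free_atm {l : Link} {y x : ℕ} (h : (l.atm y).Free x) : x = y ∨ x = l.v := by
  cases l <;> simp only [Link.atm, Form.Free, Link.v] at h ⊢ <;> tauto

theorem free_v (l : Link) (y : ℕ) : (l.atm y).Free l.v := by
  cases l <;> simp [Link.atm, Form.Free, Link.v]

theorem free_ch {C : Form} (hC : ∀ x, C.Free x → x = 3) :
    ∀ (L : List Link) (y x : ℕ), lastv L y = 3 → (ch C L y).Free x → x = y
  | [], y, x, h, hx => by
      rw [hC x hx]
      exact h.symm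
  | l :: L, y, x, h, hx => by
      obtain ⟨h1, h2⟩ := hx
      rcases h2 with h2 | h2
      · rcases free_atm h2 with h3 | h3
        · exact h3
        · exact absurd h3 h1
      · exact absurd (free_ch hC L l.v x h h2) h1

theorem ren_ne {x y u : ℕ} (h : x ≠ u) : ren x y u = u := by
  simp [ren, Ne.symm h]

theorem subst_of_not_free {x y : ℕ} : ∀ {φ : Form}, ¬ φ.Free x → φ.subst x y = φ
  | .bot, _ => rfl
  | .eq u v, h => by
      simp only [Form.Free, not_or] at h
      simp [Form.subst, ren_ne h.1, ren_ne h.2]
  | .zero u, h => by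
      simp only [Form.Free] at h
      simp [Form.subst, ren_ne h]
  | .succ u v, h => by
      simp only [Form.Free, not_or] at h
      simp [Form.subst, ren_ne h.1, ren_ne h.2]
  | .add u v w, h => by
      simp only [Form.Free, not_or] at h
      simp [Form.subst, ren_ne h.1, ren_ne h.2.1, ren_ne h.2.2]
  | .mul u v w, h => by
      simp only [Form.Free, not_or] at h
      simp [Form.subst, ren_ne h.1, ren_ne h.2.1, ren_ne h.2.2]
  | .imp φ ψ, h => by
      simp only [Form.Free, not_or] at h
      simp [Form.subst, subst_of_not_free h.1, subst_of_not_free h.2]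
  | .all u φ, h => by
      simp only [Form.Free, not_and] at h
      by_cases hu : u = x
      · simp [Form.subst, hu]
      · simp [Form.subst, hu, subst_of_not_free (h (Ne.symm hu))]

theorem subst_atm {l : Link} {x w : ℕ} (y : ℕ) (h : x ≠ l.v) :
    (l.atm y).subst x w = l.atm (ren x w y) := by
  cases l <;> simp only [Link.atm, Form.subst, Link.v] at h ⊢ <;> rw [ren_ne h]

/-- variants of chains -/
def Var (C : Form) (L : List Link) (φ : Form) : Prop := ∃ y, φ = ch C L y

theorem subst_var {C : Form} (hC : ∀ x, C.Free x → x = 3) {l : Link} {L : List Link}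
    (hl : lastv (l :: L) 0 = 3) {φ : Form} (h : Var C (l :: L) φ) (x w : ℕ) :
    Var C (l :: L) (φ.subst x w) := by
  obtain ⟨y, rfl⟩ := h
  by_cases hx : l.v = x
  · refine ⟨y, ?_⟩
    simp [ch, Form.subst, hx]
  · refine ⟨ren x w y, ?_⟩
    have h1 : ¬ (ch C L l.v).Free x := fun h => hx (free_ch hC L l.v x hl h).symm
    simp only [ch, Form.subst, if_neg hx, subst_atm y (Ne.symm hx), subst_of_not_free h1]

/-- if `x` is free and `y` is free for `x` then `y` is free after the substitution -/
theorem free_subst {x y : ℕ} : ∀ {φ : Form}, φ.Free x → φ.FreeFor y x → (φ.subst x y).Free y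
  | .eq u v, h, _ => by
      simp only [Form.Free, Form.subst, ren] at h ⊢
      rcases h with h | h <;> simp [h]
  | .zero u, h, _ => by
      simp only [Form.Free, Form.subst, ren] at h ⊢
      simp [h]
  | .succ u v, h, _ => by
      simp only [Form.Free, Form.subst, ren] at h ⊢
      rcases h with h | h <;> simp [h]
  | .add u v w, h, _ => by
      simp only [Form.Free, Form.subst, ren] at h ⊢
      rcases h with h | h | h <;> simp [h]
  | .mul u v w, h, _ => by
      simp only [Form.Free, Form.subst, ren] at h ⊢
      rcases h with h | h | h <;> simp [h]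
  | .imp φ ψ, h, hf => by
      simp only [Form.Free, Form.subst] at h ⊢
      rcases h with h | h
      · exact Or.inl (free_subst h hf.1)
      · exact Or.inr (free_subst h hf.2)
  | .all u φ, h, hf => by
      simp only [Form.Free] at h
      rcases hf with hf | hf | hf
      · exact absurd hf.symm h.1
      · exact absurd h.2 hf
      · simp only [Form.subst, if_neg (Ne.symm h.1), Form.Free]
        exact ⟨Ne.symm hf.1, free_subst h.2 hf.2⟩

section main

variable (C : Form) (l : Link) (L : List Link)

/-- every variant of the chain `L` is inside a variant of the chain `l :: L` -/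
def UE : Form → Prop
  | imp φ ψ => UE φ ∧ UE ψ
  | all x φ => Var C (l :: L) (all x φ) ∨ (¬ Var C L (all x φ) ∧ UE φ)
  | _ => _root_.True

open Classical in
/-- replace all variants of `l :: L` by `⊥ → ⊥` -/
noncomputable def R : Form → Form
  | imp φ ψ => imp (R φ) (R ψ)
  | all x φ => if Var C (l :: L) (all x φ) then bot.imp bot else all x (R φ)
  | φ => φ

end main

section lemmas

variable {C : Form} {l : Link} {L : List Link}

theorem R_all_pos {x : ℕ} {φ : Form} (h : Var C (l :: L) (all x φ)) :
    R C l L (all x φ) = bot.imp bot := by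
  simp [R, h]

theorem R_all_neg {x : ℕ} {φ : Form} (h : ¬ Var C (l :: L) (all x φ)) :
    R C l L (all x φ) = all x (R C l L φ) := by
  simp [R, h]

theorem R_imp (φ ψ : Form) : R C l L (φ.imp ψ) = (R C l L φ).imp (R C l L ψ) := by
  simp [R]

theorem not_free_R {x : ℕ} : ∀ {φ : Form}, ¬ φ.Free x → ¬ (R C l L φ).Free x
  | .bot, h => by simpa [R] using h
  | .eq u v, h => by simpa [R] using h
  | .zero u, h => by simpa [R] using h
  | .succ u v, h => by simpa [R] using h
  | .add u v w, h => by simpa [R] using h
  | .mul u v w, h => by simpa [R] using h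
  | .imp φ ψ, h => by
      simp only [Form.Free, not_or] at h
      simp only [R_imp, Form.Free, not_or]
      exact ⟨not_free_R h.1, not_free_R h.2⟩
  | .all u φ, h => by
      simp only [Form.Free, not_and] at h
      by_cases hv : Var C (l :: L) (all u φ)
      · rw [R_all_pos hv]
        simp [Form.Free]
      · rw [R_all_neg hv]
        simp only [Form.Free, not_and]
        exact fun h' => not_free_R (h h')

theorem freeFor_R {x y : ℕ} : ∀ {φ : Form}, φ.FreeFor y x → (R C l L φ).FreeFor y x
  | .bot, h => by simp [R, Form.FreeFor]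
  | .eq u v, h => by simp [R, Form.FreeFor]
  | .zero u, h => by simp [R, Form.FreeFor]
  | .succ u v, h => by simp [R, Form.FreeFor]
  | .add u v w, h => by simp [R, Form.FreeFor]
  | .mul u v w, h => by simp [R, Form.FreeFor]
  | .imp φ ψ, h => by
      rw [R_imp]
      exact ⟨freeFor_R h.1, freeFor_R h.2⟩
  | .all u φ, h => by
      by_cases hv : Var C (l :: L) (all u φ)
      · rw [R_all_pos hv]
        simp [Form.FreeFor]
      · rw [R_all_neg hv]
        rcases h with h | h | h
        · exact Or.inl h
        · exact Or.inr (Or.inl (not_free_R h))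
        · exact Or.inr (Or.inr ⟨h.1, freeFor_R h.2⟩)

theorem len_R (hC : 9 ≤ C.len) : ∀ (φ : Form), (R C l L φ).len ≤ φ.len
  | .bot => by simp [R]
  | .eq u v => by simp [R]
  | .zero u => by simp [R]
  | .succ u v => by simp [R]
  | .add u v w => by simp [R]
  | .mul u v w => by simp [R]
  | .imp φ ψ => by
      have h1 := len_R hC φ
      have h2 := len_R hC ψ
      simp only [R_imp, Ext.len_imp]
      omega
  | .all u φ => by
      by_cases hv : Var C (l :: L) (all u φ)
      · rw [R_all_pos hv]
        obtain ⟨y, hy⟩ := hv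
        have := len_ch C (l :: L) y
        rw [hy]
        have h9 : (bot.imp bot).len = 9 := rfl
        rw [h9]
        omega
      · rw [R_all_neg hv]
        have h1 := len_R hC φ
        simp only [Ext.len_all]
        omega

/-- short formulas are not changed -/
theorem R_short : ∀ {φ : Form}, φ.len ≤ C.len → R C l L φ = φ
  | .bot, _ => by simp [R]
  | .eq u v, _ => by simp [R]
  | .zero u, _ => by simp [R]
  | .succ u v, _ => by simp [R]
  | .add u v w, _ => by simp [R]
  | .mul u v w, _ => by simp [R]
  | .imp φ ψ, h => by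
      rw [Ext.len_imp] at h
      rw [R_imp, R_short (by omega), R_short (by omega)]
  | .all u φ, h => by
      have hv : ¬ Var C (l :: L) (all u φ) := by
        rintro ⟨y, hy⟩
        have := len_ch C (l :: L) y
        rw [hy] at h
        simp only [List.length_cons] at this
        omega
      rw [Ext.len_all] at h
      rw [R_all_neg hv, R_short (by omega)]

theorem not_ue {L : List Link} {l' : Link} {y : ℕ} : ¬ UE C l (l' :: L) (ch C (l' :: L) y) := by
  intro h
  rcases h with ⟨y', hy'⟩ | h
  · have h1 := congrArg nd hy'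
    rw [show (Form.all l'.v ((l'.atm y).imp (ch C L l'.v))) = ch C (l' :: L) y from rfl] at h1
    rw [nd_ch, nd_ch] at h1
    simp only [List.length_cons] at h1
    omega
  · exact h.1 ⟨y, rfl⟩

theorem R_subst (hC : ∀ x, C.Free x → x = 3) {l' : Link} {L' : List Link}
    (hl : lastv (l' :: L') 0 = 3) {x y : ℕ} :
    ∀ {φ : Form}, UE C l (l' :: L') φ → φ.FreeFor y x →
      R C l (l' :: L') (φ.subst x y) = (R C l (l' :: L') φ).subst x y
  | .bot, _, _ => by simp [R, Form.subst]
  | .eq u v, _, _ => by simp [R, Form.subst]
  | .zero u, _, _ => by simp [R, Form.subst]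
  | .succ u v, _, _ => by simp [R, Form.subst]
  | .add u v w, _, _ => by simp [R, Form.subst]
  | .mul u v w, _, _ => by simp [R, Form.subst]
  | .imp φ ψ, h, hf => by
      have h1 := R_subst hC hl h.1 hf.1
      have h2 := R_subst hC hl h.2 hf.2
      simp only [Form.subst, R_imp, h1, h2]
  | .all u φ, h, hf => by
      by_cases hV : Var C (l :: l' :: L') (all u φ)
      · rw [R_all_pos hV]
        have h1 := subst_var hC (show lastv (l :: l' :: L') 0 = 3 from hl) hV x y
        by_cases hu : u = x
        · simp only [Form.subst, if_pos hu]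
          rw [R_all_pos hV]
        · simp only [Form.subst, if_neg hu] at h1 ⊢
          rw [R_all_pos h1]
      · rw [R_all_neg hV]
        rcases h with h | ⟨h0, h⟩
        · exact absurd h hV
        by_cases hu : u = x
        · simp only [Form.subst, if_pos hu]
          rw [R_all_neg hV]
        · simp only [Form.subst, if_neg hu]
          have hV' : ¬ Var C (l :: l' :: L') (all u (φ.subst x y)) := by
            rintro ⟨w, hw⟩
            simp only [ch, Form.all.injEq] at hw
            obtain ⟨hw1, hw2⟩ := hw
            cases φ with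
            | bot => simp [Form.subst] at hw2
            | eq a b => simp [Form.subst] at hw2
            | zero a => simp [Form.subst] at hw2
            | succ a b => simp [Form.subst] at hw2
            | add a b c => simp [Form.subst] at hw2
            | mul a b c => simp [Form.subst] at hw2
            | all a b =>
                simp only [Form.subst] at hw2
                split_ifs at hw2
            | imp a b =>
                simp only [Form.subst, Form.imp.injEq] at hw2
                obtain ⟨_, hw3⟩ := hw2
                by_cases hb : b.Free x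
                · rcases hf with hf | hf | hf
                  · exact hu hf
                  · exact hf (Or.inr hb)
                  · have h1 := free_subst hb hf.2.2
                    rw [hw3] at h1
                    have h2 := free_ch hC (l' :: L') l.v y hl h1
                    exact hf.1 (hw1.trans h2.symm)
                · rw [subst_of_not_free hb] at hw3
                  have h1 := h.2
                  rw [hw3] at h1
                  exact not_ue h1
          rw [R_all_neg hV']
          congr 1
          rcases hf with hf | hf | hf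
          · exact absurd hf hu
          · rw [subst_of_not_free hf, subst_of_not_free (not_free_R hf)]
          · exact R_subst hC hl h hf.2

theorem R_logAx (hC : ∀ x, C.Free x → x = 3) {l' : Link} {L' : List Link}
    (hl : lastv (l' :: L') 0 = 3) {φ : Form} (h : LogAx φ) (hu : UE C l (l' :: L') φ) :
    LogAx (R C l (l' :: L') φ) := by
  cases h with
  | k a b => simp only [R_imp]; exact LogAx.k _ _
  | s a b c => simp only [R_imp]; exact LogAx.s _ _ _
  | dn a =>
      simp only [Form.neg, R_imp]
      exact LogAx.dn _
  | inst x y a hf =>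
      obtain ⟨h1, h2⟩ := hu
      have hV : ¬ Var C (l :: l' :: L') (all x a) := by
        rintro ⟨w, hw⟩
        simp only [ch, Form.all.injEq] at hw
        obtain ⟨hw1, hw2⟩ := hw
        rw [hw2] at h2
        have h3 : UE C l (l' :: L') ((ch C (l' :: L') l.v).subst x y) := h2.2
        obtain ⟨w', hw'⟩ := subst_var hC hl (φ := ch C (l' :: L') l.v) ⟨_, rfl⟩ x y
        rw [hw'] at h3
        exact not_ue h3
      rcases h1 with h1 | ⟨_, h1⟩
      · exact absurd h1 hV
      rw [R_imp, R_all_neg hV, R_subst hC hl h1 hf]
      exact LogAx.inst x y _ (freeFor_R hf)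
  | dist x a b hx =>
      obtain ⟨h1, h2⟩ := hu
      have hV : ¬ Var C (l :: l' :: L') (all x (a.imp b)) := by
        rintro ⟨w, hw⟩
        simp only [ch, Form.all.injEq, Form.imp.injEq] at hw
        obtain ⟨hw1, hw2, hw3⟩ := hw
        apply hx
        rw [hw1, hw2]
        exact free_v l w
      rcases h1 with h1 | ⟨_, h1⟩
      · exact absurd h1 hV
      have hV' : ¬ Var C (l :: l' :: L') (all x b) := by
        rintro ⟨w, hw⟩
        simp only [ch, Form.all.injEq] at hw
        obtain ⟨hw1, hw2⟩ := hw
        have h3 := h1.2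
        rw [hw2] at h3
        exact not_ue h3.2
      rw [R_imp, R_all_neg hV, R_imp, R_imp, R_all_neg hV']
      exact LogAx.dist x _ _ (not_free_R hx)
  | refl x => simp only [R]; exact LogAx.refl x
  | repl x y a b hr =>
      have ha : R C l (l' :: L') a = a := by cases hr <;> rfl
      have hb : R C l (l' :: L') b = b := by cases hr <;> rfl
      have he : R C l (l' :: L') (Form.eq x y) = Form.eq x y := rfl
      rw [R_imp, R_imp, ha, hb, he]
      exact LogAx.repl x y a b hr

/-- the steps of a proof -/
theorem R_step (hC : ∀ x, C.Free x → x = 3) {l' : Link} {L' : List Link}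
    (hl : lastv (l' :: L') 0 = 3) {Γ π T : List Form} {U φ : Form}
    (hΓ : ∀ ψ ∈ Γ, ψ.len ≤ C.len) (hT : Step Γ T (R C l (l' :: L') U))
    (hπ : ∀ ψ ∈ φ :: π, UE C l (l' :: L') ψ) (h : Step (Γ ++ [U]) π φ) :
    Step Γ (π.map (R C l (l' :: L')) ++ T) (R C l (l' :: L') φ) := by
  rcases h with h | h | ⟨ψ, h1, h2⟩ | ⟨ψ, h1, x, h2⟩
  · rcases List.mem_append.1 h with h | h
    · left
      rw [R_short (hΓ _ h)]
      exact h
    · rw [List.mem_singleton] at h
      subst h
      exact hT.mono (fun ψ hψ => List.mem_append_right _ hψ)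
  · exact Or.inr (Or.inl (R_logAx hC hl h (hπ φ (by simp))))
  · refine Or.inr (Or.inr (Or.inl ⟨R C l (l' :: L') ψ, ?_, ?_⟩))
    · exact List.mem_append_left _ (List.mem_map_of_mem h1)
    · rw [← R_imp]
      exact List.mem_append_left _ (List.mem_map_of_mem h2)
  · subst h2
    have hV : ¬ Var C (l :: l' :: L') (all x ψ) := by
      rintro ⟨w, hw⟩
      simp only [ch, Form.all.injEq] at hw
      obtain ⟨hw1, hw2⟩ := hw
      have h3 := hπ ψ (List.mem_cons_of_mem _ h1)
      rw [hw2] at h3
      exact not_ue h3.2
    rw [R_all_neg hV]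
    refine Or.inr (Or.inr (Or.inr ⟨R C l (l' :: L') ψ, ?_, x, rfl⟩))
    exact List.mem_append_left _ (List.mem_map_of_mem h1)

theorem R_proof (hC : ∀ x, C.Free x → x = 3) {l' : Link} {L' : List Link}
    (hl : lastv (l' :: L') 0 = 3) {Γ T : List Form} {U : Form}
    (hΓ : ∀ ψ ∈ Γ, ψ.len ≤ C.len) (hT : IsProof Γ T) (hT' : Step Γ T (R C l (l' :: L') U)) :
    ∀ {π : List Form}, (∀ ψ ∈ π, UE C l (l' :: L') ψ) → IsProof (Γ ++ [U]) π →
      IsProof Γ (π.map (R C l (l' :: L')) ++ T)
  | [], _, _ => by simpa using hT
  | φ :: π, hπ, h => by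
      refine ⟨R_proof hC hl hΓ hT hT' (fun ψ hψ => hπ ψ (List.mem_cons_of_mem _ hψ)) h.1, ?_⟩
      exact R_step hC hl hΓ hT' hπ h.2

theorem lens_map_R (hC : 9 ≤ C.len) : ∀ (π : List Form), lens (π.map (R C l L)) ≤ lens π
  | [] => by simp
  | φ :: π => by
      have h1 := lens_map_R hC π
      have h2 := len_R (l := l) (L := L) hC φ
      simp only [List.map_cons, lens_cons]
      omega

/-- the truncated chain -/
theorem R_ch : ∀ (A : List Link) (y : ℕ), R C l L (ch C (A ++ l :: L) y) = ch (bot.imp bot) A y
  | [], y => R_all_pos ⟨y, rfl⟩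
  | l0 :: A, y => by
      have hV : ¬ Var C (l :: L) (all l0.v ((l0.atm y).imp (ch C (A ++ l :: L) l0.v))) := by
        rintro ⟨w, hw⟩
        have h1 := congrArg nd hw
        rw [show (Form.all l0.v ((l0.atm y).imp (ch C (A ++ l :: L) l0.v))) =
          ch C (l0 :: (A ++ l :: L)) y from rfl] at h1
        rw [nd_ch, nd_ch] at h1
        simp only [List.length_cons, List.length_append] at h1
        omega
      have ha : R C l L (l0.atm y) = l0.atm y := by cases l0 <;> rfl
      show R C l L (all l0.v ((l0.atm y).imp (ch C (A ++ l :: L) l0.v))) = _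
      rw [R_all_neg hV, R_imp, ha, R_ch A]
      rfl

/-! ### Exposed variants -/

theorem ue_small {l' : Link} {L' : List Link} :
    ∀ {φ : Form}, nd φ < 2 * (l' :: L').length + nd C → UE C l (l' :: L') φ
  | .bot, _ => trivial
  | .eq u v, _ => trivial
  | .zero u, _ => trivial
  | .succ u v, _ => trivial
  | .add u v w, _ => trivial
  | .mul u v w, _ => trivial
  | .imp φ ψ, h => by
      simp only [nd] at h
      exact ⟨ue_small (by omega), ue_small (by omega)⟩
  | .all u φ, h => by
      refine Or.inr ⟨?_, ?_⟩
      · rintro ⟨w, hw⟩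
        rw [hw, nd_ch] at h
        exact lt_irrefl _ h
      · simp only [nd] at h
        exact ue_small (by omega)

theorem ue_ch : ∀ (A : List Link) (y : ℕ), UE C l L (ch C (A ++ l :: L) y)
  | [], y => Or.inl ⟨y, rfl⟩
  | l0 :: A, y => by
      refine Or.inr ⟨?_, ?_⟩
      · rintro ⟨w, hw⟩
        have hw' : ch C (l0 :: (A ++ l :: L)) y = ch C L w := hw
        have h1 := congrArg nd hw'
        rw [nd_ch, nd_ch] at h1
        simp only [List.length_cons, List.length_append] at h1
        omega
      · refine ⟨?_, ue_ch A _⟩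
        cases l0 <;> exact trivial

end lemmas

/-- the chain of length `j` -/
def sf (T0 : List Link) (j : ℕ) : List Link := T0.drop (T0.length - j)

theorem length_sf {T0 : List Link} {j : ℕ} (h : j ≤ T0.length) : (sf T0 j).length = j := by
  simp only [sf, List.length_drop]
  omega

/-- a variant of the chain of length `j` occurs outside of all longer variants -/
def Exp (C : Form) (T0 : List Link) (j : ℕ) : Form → Prop
  | imp φ ψ => Exp C T0 j φ ∨ Exp C T0 j ψ
  | all x φ => Var C (sf T0 j) (all x φ) ∨
      ((∀ i, 1 ≤ i → i ≤ T0.length → ¬ Var C (sf T0 i) (all x φ)) ∧ Exp C T0 j φ)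
  | _ => False

theorem sf_split {T0 : List Link} {i j : ℕ} (hij : j ≤ i) (hi : i ≤ T0.length) :
    ∃ A, sf T0 i = A ++ sf T0 j := by
  refine ⟨(sf T0 i).take (i - j), ?_⟩
  have h1 : sf T0 j = (sf T0 i).drop (i - j) := by
    simp only [sf, List.drop_drop]
    congr 1
    omega
  rw [h1, List.take_append_drop]

theorem ue_of_not_exp {C : Form} {T0 : List Link} {j : ℕ} (hj : j + 1 ≤ T0.length)
    {l l' : Link} {L' : List Link} (h1 : sf T0 (j + 1) = l :: l' :: L') (h2 : sf T0 j = l' :: L') :
    ∀ {φ : Form}, ¬ Exp C T0 j φ → UE C l (l' :: L') φ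
  | .bot, _ => trivial
  | .eq u v, _ => trivial
  | .zero u, _ => trivial
  | .succ u v, _ => trivial
  | .add u v w, _ => trivial
  | .mul u v w, _ => trivial
  | .imp φ ψ, h => by
      simp only [Exp, not_or] at h
      exact ⟨ue_of_not_exp hj h1 h2 h.1, ue_of_not_exp hj h1 h2 h.2⟩
  | .all x φ, h => by
      simp only [Exp, not_or, not_and] at h
      obtain ⟨h3, h4⟩ := h
      by_cases h5 : ∀ i, 1 ≤ i → i ≤ T0.length → ¬ Var C (sf T0 i) (all x φ)
      · refine Or.inr ⟨?_, ue_of_not_exp hj h1 h2 (h4 h5)⟩
        rw [← h2]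
        exact h3
      · push Not at h5
        obtain ⟨i, hi1, hi2, w, hw⟩ := h5
        rcases lt_trichotomy i j with h6 | h6 | h6
        · apply ue_small
          rw [hw, nd_ch, length_sf hi2, ← h2, length_sf (by omega)]
          omega
        · subst h6
          exact absurd ⟨w, hw⟩ h3
        · obtain ⟨A, hA⟩ := sf_split (show j + 1 ≤ i from h6) hi2
          rw [hw, hA, h1]
          exact ue_ch A w

theorem count_form {C : Form} {T0 : List Link} :
    ∀ (φ : Form) (S : Finset ℕ), (∀ j ∈ S, 1 ≤ j ∧ j ≤ T0.length ∧ Exp C T0 j φ) →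
      ∑ j ∈ S, 11 * j ≤ φ.len := by
  classical
  intro φ
  induction φ with
  | bot =>
      intro S hS
      have : S = ∅ := Finset.eq_empty_of_forall_notMem (fun j hj => (hS j hj).2.2)
      simp [this]
  | eq u v =>
      intro S hS
      have : S = ∅ := Finset.eq_empty_of_forall_notMem (fun j hj => (hS j hj).2.2)
      simp [this]
  | zero u =>
      intro S hS
      have : S = ∅ := Finset.eq_empty_of_forall_notMem (fun j hj => (hS j hj).2.2)
      simp [this]
  | succ u v =>
      intro S hS
      have : S = ∅ := Finset.eq_empty_of_forall_notMem (fun j hj => (hS j hj).2.2)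
      simp [this]
  | add u v w =>
      intro S hS
      have : S = ∅ := Finset.eq_empty_of_forall_notMem (fun j hj => (hS j hj).2.2)
      simp [this]
  | mul u v w =>
      intro S hS
      have : S = ∅ := Finset.eq_empty_of_forall_notMem (fun j hj => (hS j hj).2.2)
      simp [this]
  | imp a b iha ihb =>
      intro S hS
      rw [← Finset.sum_filter_add_sum_filter_not S (fun j => Exp C T0 j a)]
      have h1 := iha (S.filter (fun j => Exp C T0 j a)) (fun j hj => by
        rw [Finset.mem_filter] at hj
        exact ⟨(hS j hj.1).1, (hS j hj.1).2.1, hj.2⟩)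
      have h2 := ihb (S.filter (fun j => ¬ Exp C T0 j a)) (fun j hj => by
        rw [Finset.mem_filter] at hj
        refine ⟨(hS j hj.1).1, (hS j hj.1).2.1, ?_⟩
        exact (hS j hj.1).2.2.resolve_left hj.2)
      rw [Ext.len_imp]
      omega
  | all x a iha =>
      intro S hS
      by_cases h5 : ∀ i, 1 ≤ i → i ≤ T0.length → ¬ Var C (sf T0 i) (all x a)
      · have h1 := iha S (fun j hj => by
          refine ⟨(hS j hj).1, (hS j hj).2.1, ?_⟩
          rcases (hS j hj).2.2 with h | h
          · exact absurd h (h5 j (hS j hj).1 (hS j hj).2.1)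
          · exact h.2)
        rw [Ext.len_all]
        omega
      · push Not at h5
        obtain ⟨i, hi1, hi2, w, hw⟩ := h5
        have hsub : S ⊆ {i} := by
          intro j hj
          rw [Finset.mem_singleton]
          rcases (hS j hj).2.2 with ⟨w', hw'⟩ | h
          · rw [hw] at hw'
            have := congrArg nd hw'
            rw [nd_ch, nd_ch, length_sf hi2, length_sf (hS j hj).2.1] at this
            omega
          · exact absurd ⟨w, hw⟩ (h.1 i hi1 hi2)
        have h1 : ∑ j ∈ S, 11 * j ≤ 11 * i := by
          calc ∑ j ∈ S, 11 * j ≤ ∑ j ∈ {i}, 11 * j :=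
                Finset.sum_le_sum_of_subset hsub
            _ = 11 * i := by simp
        have h2 := len_ch C (sf T0 i) w
        rw [← hw, length_sf hi2] at h2
        omega

theorem count_list {C : Form} {T0 : List Link} :
    ∀ (π : List Form) (S : Finset ℕ),
      (∀ j ∈ S, 1 ≤ j ∧ j ≤ T0.length ∧ ∃ ψ ∈ π, Exp C T0 j ψ) →
      ∑ j ∈ S, 11 * j ≤ lens π := by
  classical
  intro π
  induction π with
  | nil =>
      intro S hS
      have : S = ∅ := Finset.eq_empty_of_forall_notMem (fun j hj => by
        obtain ⟨ψ, h, _⟩ := (hS j hj).2.2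
        simp at h)
      simp [this]
  | cons φ π ih =>
      intro S hS
      rw [← Finset.sum_filter_add_sum_filter_not S (fun j => Exp C T0 j φ)]
      have h1 := count_form (C := C) (T0 := T0) φ (S.filter (fun j => Exp C T0 j φ))
        (fun j hj => by
        rw [Finset.mem_filter] at hj
        exact ⟨(hS j hj.1).1, (hS j hj.1).2.1, hj.2⟩)
      have h2 := ih (S.filter (fun j => ¬ Exp C T0 j φ)) (fun j hj => by
        rw [Finset.mem_filter] at hj
        refine ⟨(hS j hj.1).1, (hS j hj.1).2.1, ?_⟩
        obtain ⟨ψ, h, h'⟩ := (hS j hj.1).2.2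
        rcases List.mem_cons.1 h with rfl | h
        · exact absurd h' hj.2
        · exact ⟨ψ, h, h'⟩)
      rw [lens_cons]
      omega

/-! ### The truncated chain is provable -/

theorem ext_ch {Γ : List Form} : ∀ (A : List Link) (y : ℕ), y ≤ 3 → (∀ l ∈ A, l.v ≤ 3) →
    Ext Γ [] (350 + 50 * A.length ^ 2 + 50 * A.length) (ch (bot.imp bot) A y) ∧
      (ch (bot.imp bot) A y).len ≤ 25 * A.length + 9
  | [], y, _, _ => by
      refine ⟨(Ext.refl' bot).le ?_, ?_⟩
      · have : bot.len = 3 := rfl
        rw [this]
        simp
      · have : (ch (bot.imp bot) [] y).len = 9 := rfl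
        rw [this]
        simp
  | l :: A, y, hy, hA => by
      have hl : l.v ≤ 3 := hA l (by simp)
      obtain ⟨h1, h2⟩ := ext_ch (Γ := Γ) A l.v hl (fun l' hl' => hA l' (List.mem_cons_of_mem _ hl'))
      have h3 : (l.atm y).len ≤ 15 := by
        cases l <;> simp only [Link.atm, Link.v, Form.len, Form.str, varStr, List.length_append,
          List.length_cons, List.length_nil, List.length_replicate] at hl ⊢ <;> omega
      have h4 : (ch (bot.imp bot) (l :: A) y).len ≤ 25 * (l :: A).length + 9 := by
        simp only [ch, Ext.len_all, Ext.len_imp, List.length_cons]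
        omega
      refine ⟨?_, h4⟩
      have h5 := (h1.weak (l.atm y)).gen l.v
      refine h5.le ?_
      have h6 : (Form.all l.v ((l.atm y).imp (ch (bot.imp bot) A l.v))).len ≤
        25 * (l :: A).length + 9 := h4
      simp only [List.length_cons] at h6 ⊢
      nlinarith [h2, h3, h6]

/-! ### Numerals -/

theorem num_append (w : List Bool) (b : Bool) :
    num (w ++ [b]) = 2 * num w + if b then 2 else 1 := by
  simp [num, List.foldl_append]

theorem length_digits_num (w : List Bool) : (digits (num w)).length = w.length := by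
  induction w using List.reverseRecOn with
  | nil =>
      rw [show num [] = 0 from rfl, digits]
      simp
  | append_singleton w b ih =>
      rw [num_append, digits]
      have h0 : 2 * num w + (if b then 2 else 1) ≠ 0 := by
        cases b <;> simp
      rw [dif_neg h0]
      have h1 : (2 * num w + (if b = true then 2 else 1) - 1) / 2 = num w := by
        cases b
        · simp
        · simp only [if_true]
          omega
      rw [h1]
      simp [ih]

/-- the links of a numeral -/
def dl (x : ℕ) : List Bool → List Link
  | [] => []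
  | b :: w => (if b then [.a 0, .s 1, .s x] else [.a 0, .s x]) ++ dl x w

theorem foldr_digit (x : ℕ) (φ : Form) : ∀ (w : List Bool),
    w.foldr (digit x) φ = ch φ (dl x w) x
  | [] => rfl
  | true :: w => by
      rw [List.foldr_cons, foldr_digit x φ w]
      simp [digit, dl, ch, Link.v, Link.atm]
  | false :: w => by
      rw [List.foldr_cons, foldr_digit x φ w]
      simp [digit, dl, ch, Link.v, Link.atm]

theorem inst_eq (x n : ℕ) (φ : Form) (y : ℕ) :
    inst x n φ = ch φ (.z x :: dl x (digits n)) y := by
  rw [inst, foldr_digit]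
  rfl

theorem length_dl (x : ℕ) : ∀ (w : List Bool),
    w.length ≤ (dl x w).length ∧ (dl x w).length ≤ 3 * w.length
  | [] => by simp [dl]
  | b :: w => by
      have := length_dl x w
      cases b <;> simp [dl] <;> omega

theorem v_dl : ∀ (w : List Bool), ∀ l ∈ dl 3 w, l.v ≤ 3
  | [], l, h => by simp [dl] at h
  | b :: w, l, h => by
      rcases List.mem_append.1 h with h | h
      · cases b
        · simp at h
          rcases h with rfl | rfl <;> simp [Link.v]
        · simp at h
          rcases h with rfl | rfl | rfl <;> simp [Link.v]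
      · exact v_dl w l h

theorem lastv_dl (x : ℕ) : ∀ (w : List Bool), lastv (dl x w) x = x
  | [] => rfl
  | true :: w => lastv_dl x w
  | false :: w => lastv_dl x w

theorem lastv_append : ∀ (A : List Link) (l : Link) (L : List Link) (y z : ℕ),
    lastv (A ++ l :: L) y = lastv (l :: L) z
  | [], _, _, _, _ => rfl
  | _ :: A, l, L, _, z => lastv_append A l L _ z

theorem free_foldr {x z : ℕ} {φ : Form} : ∀ (w : List Bool),
    (w.foldr (digit x) φ).Free z → z = x ∨ φ.Free z
  | [], h => Or.inr h
  | true :: w, h => by
      have ih : (w.foldr (digit x) φ).Free z → z = x ∨ φ.Free z := free_foldr w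
      rw [List.foldr_cons] at h
      simp only [digit, if_true, Form.Free] at h
      tauto
  | false :: w, h => by
      have ih : (w.foldr (digit x) φ).Free z → z = x ∨ φ.Free z := free_foldr w
      rw [List.foldr_cons] at h
      simp only [digit, Bool.false_eq_true, if_false, Form.Free] at h
      tauto

theorem free_inst {x z n : ℕ} {φ : Form} (h : (inst x n φ).Free z) : z ≠ x ∧ φ.Free z := by
  obtain ⟨h1, h2 | h2⟩ := h
  · exact absurd h2 h1
  · rcases free_foldr _ h2 with h3 | h3
    · exact absurd h3 h1
    · exact ⟨h1, h3⟩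

theorem free_con {P : Form} (hP : ∀ x, P.Free x → x = 2 ∨ x = 3 ∨ x = 4) {Γ : List Form} (x : ℕ)
    (h : (con P Γ).Free x) : x = 3 := by
  obtain ⟨h1, h2⟩ := free_inst h
  obtain ⟨h3, h4⟩ := free_inst h2
  have h5 : P.Free x := by
    simpa [Form.neg, Form.Free] using h4
  rcases hP x h5 with h | h | h
  · exact absurd h h1
  · exact h
  · exact absurd h h3

theorem len_con {P : Form} {Γ : List Form} : lens Γ + 11 ≤ (con P Γ).len := by
  rw [con, inst_eq 2 _ _ 0]
  have h1 := len_ch (inst 4 (code [bot]) P.neg) (.z 2 :: dl 2 (digits (code Γ))) 0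
  have h2 := (length_dl 2 (digits (code Γ))).1
  have h3 : (digits (code Γ)).length = lens Γ := length_digits_num _
  simp only [List.length_cons] at h1
  omega

theorem len_le_lens {φ : Form} : ∀ {Γ : List Form}, φ ∈ Γ → φ.len ≤ lens Γ
  | ψ :: Γ, h => by
      rw [lens_cons]
      rcases List.mem_cons.1 h with rfl | h
      · omega
      · have := len_le_lens h
        omega

end Gap

open Gap in
theorem gap (P : Form) (hP : ∀ x, P.Free x → x = 2 ∨ x = 3 ∨ x = 4) (Γ : List Form) (N m : ℕ)
    (hm : m ≤ ((digits N).length + 2) ^ 2)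
    (h : Proves (Γ ++ [conAt P Γ N]) m bot) :
    Proves Γ (10000 * ((digits N).length + 2) ^ 2) bot := by
  classical
  obtain ⟨π, hπ, hlen⟩ := h
  change lens (bot :: π) ≤ m at hlen
  set n := (digits N).length with hn
  set C := con P Γ with hCdef
  have hC : ∀ x, C.Free x → x = 3 := free_con hP
  have hClen : lens Γ + 11 ≤ C.len := len_con
  set T0 : List Link := .z 3 :: dl 3 (digits N) with hT0
  have hU : conAt P Γ N = ch C T0 0 := inst_eq 3 N C 0
  have hK1 : n + 1 ≤ T0.length := by
    have := (length_dl 3 (digits N)).1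
    simp only [hT0, List.length_cons]
    omega
  have hK2 : T0.length ≤ 3 * n + 1 := by
    have := (length_dl 3 (digits N)).2
    simp only [hT0, List.length_cons]
    omega
  -- an index which is not exposed
  obtain ⟨j, hj1, hj2, hj3⟩ : ∃ j, 1 ≤ j ∧ j ≤ T0.length ∧ ∀ ψ ∈ bot :: π, ¬ Exp C T0 j ψ := by
    by_contra hcon
    push Not at hcon
    have h1 := count_list (C := C) (T0 := T0) (bot :: π) (Finset.Icc 1 T0.length)
      (fun j hj => by
        rw [Finset.mem_Icc] at hj
        exact ⟨hj.1, hj.2, hcon j hj.1 hj.2⟩)
    have h2 : ∑ j ∈ Finset.Icc 1 (n + 1), 11 * j ≤ ∑ j ∈ Finset.Icc 1 T0.length, 11 * j :=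
      Finset.sum_le_sum_of_subset (Finset.Icc_subset_Icc le_rfl hK1)
    have h3 : ∀ k : ℕ, 2 * ∑ j ∈ Finset.Icc 1 k, 11 * j = 11 * (k * (k + 1)) := by
      intro k
      induction k with
      | zero => simp
      | succ k ih =>
          rw [Finset.sum_Icc_succ_top (by omega), mul_add, ih]
          ring
    have h4 := h3 (n + 1)
    have h5 : 11 * ((n + 1) * (n + 1 + 1)) ≤ 2 * (n + 2) ^ 2 := by
      rw [← h4]
      omega
    nlinarith
  rcases Nat.lt_or_ge j T0.length with hj | hj
  · -- the chain can be truncated
    obtain ⟨A, hA⟩ := sf_split (T0 := T0) (show j + 1 ≤ T0.length from hj) le_rfl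
    have hsf : sf T0 T0.length = T0 := by simp [sf]
    rw [hsf] at hA
    obtain ⟨B, hB⟩ := sf_split (T0 := T0) (Nat.le_succ j) hj
    have hlB : B.length = 1 := by
      have h1 := congrArg List.length hB
      rw [List.length_append, length_sf hj, length_sf hj2] at h1
      omega
    obtain ⟨l, rfl⟩ := List.length_eq_one_iff.1 hlB
    obtain ⟨l', L', hL'⟩ : ∃ l' L', sf T0 j = l' :: L' := by
      have h1 := length_sf hj2
      cases hs : sf T0 j with
      | nil => rw [hs] at h1; simp at h1; omega
      | cons l' L' => exact ⟨l', L', rfl⟩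
    rw [hL'] at hB
    have hB' : sf T0 (j + 1) = l :: l' :: L' := hB
    rw [hB'] at hA
    have hl : lastv (l' :: L') 0 = 3 := by
      have h1 : lastv T0 0 = 3 := lastv_dl 3 (digits N)
      rw [hA, show A ++ l :: l' :: L' = (A ++ [l]) ++ l' :: L' by simp] at h1
      rw [← h1]
      exact (lastv_append _ _ _ _ _).symm
    have hue : ∀ ψ ∈ bot :: π, UE C l (l' :: L') ψ := fun ψ hψ =>
      ue_of_not_exp hj hB' hL' (hj3 ψ hψ)
    have hv : ∀ l0 ∈ T0, l0.v ≤ 3 := by
      intro l0 hl0
      rw [hT0] at hl0
      rcases List.mem_cons.1 hl0 with rfl | hl0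
      · simp [Link.v]
      · exact v_dl _ _ hl0
    obtain ⟨hE, _⟩ := ext_ch (Γ := Γ) A 0 (by omega) (fun l0 hl0 => hv l0 (by
      rw [hA]
      exact List.mem_append_left _ hl0))
    have hRU : R C l (l' :: L') (conAt P Γ N) = ch (bot.imp bot) A 0 := by
      rw [hU, hA, R_ch]
    obtain ⟨T, hT1, hT2⟩ := hE.proves
    rw [← hRU] at hT1 hT2
    change lens _ ≤ _ at hT2
    have hproof := R_proof (l := l) hC hl (Γ := Γ) (T := T) (U := conAt P Γ N)
      (fun ψ hψ => by have := len_le_lens hψ; omega) hT1.1 hT1.2 hue hπ
    rw [List.map_cons, List.cons_append] at hproof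
    refine ⟨_, hproof, ?_⟩
    have h1 := lens_map_R (C := C) (l := l) (L := l' :: L') (by omega) (bot :: π)
    rw [List.map_cons, lens_cons] at h1
    show lens (R C l (l' :: L') bot :: (π.map (R C l (l' :: L')) ++ T)) ≤ _
    rw [lens_cons, lens_append]
    rw [lens_cons] at hT2
    have hAl : A.length ≤ 3 * n := by
      have := congrArg List.length hA
      simp only [List.length_append, List.length_cons] at this
      omega
    have h2 : 350 + 50 * A.length ^ 2 + 50 * A.length ≤ 9999 * (n + 2) ^ 2 := by
      have h3 : A.length ^ 2 ≤ (3 * n) ^ 2 := Nat.pow_le_pow_left hAl 2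
      nlinarith
    have h3 : (R C l (l' :: L') bot).len + lens (π.map (R C l (l' :: L'))) ≤ (n + 2) ^ 2 := by
      omega
    omega
  · -- the axiom is not used
    have hjK : j = T0.length := le_antisymm hj2 hj
    subst hjK
    have hp : ∀ {π' : List Form}, (∀ ψ ∈ π', ¬ Exp C T0 T0.length ψ) →
        IsProof (Γ ++ [conAt P Γ N]) π' → IsProof Γ π' := by
      intro π'
      induction π' with
      | nil => exact fun _ _ => trivial
      | cons φ π' ih =>
          intro h1 h2
          refine ⟨ih (fun ψ hψ => h1 ψ (List.mem_cons_of_mem _ hψ)) h2.1, ?_⟩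
          rcases h2.2 with h3 | h3
          · rcases List.mem_append.1 h3 with h4 | h4
            · exact Or.inl h4
            · exfalso
              rw [List.mem_singleton] at h4
              apply h1 φ (by simp)
              rw [h4, hU]
              refine Or.inl ⟨0, ?_⟩
              simp only [sf, Nat.sub_self, List.drop_zero]
              rfl
          · exact Or.inr h3
    refine ⟨π, hp hj3 hπ, ?_⟩
    show lens (bot :: π) ≤ _
    have : (n + 2) ^ 2 ≤ 10000 * (n + 2) ^ 2 := by nlinarith [Nat.zero_le ((n + 2) ^ 2)]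
    omega

end Pool.Agent.TH672
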