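import Pool.Agent.TH614.HS.Base

/-! Job 3902 (HS-CS3): count of the conic in characteristic 3. -/

set_option autoImplicit false

namespace Pool.Agent.TH811.HS3

open Pool.Agent.TH614.HS Polynomial

section count
variable {L : Type} [Field L] [IsAlgClosed L]

lemma card_zeros (p : L[X]) (d : ℕ) (a : L) (hd : p.natDegree = d) (hder : derivative p = C a)
    (ha : a ≠ 0) : {x : L | p.eval x = 0}.ncard = d := by
  classical
  have hp0 : p ≠ 0 := by
    rintro rfl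
    rw [derivative_zero] at hder
    exact ha (C_eq_zero.mp hder.symm)
  have hsep : p.Separable := by
    refine ⟨0, C a⁻¹, ?_⟩
    rw [hder, zero_mul, zero_add, ← C_mul, inv_mul_cancel₀ ha, C_1]
  have h1 : {x : L | p.eval x = 0} = (p.roots.toFinset : Set L) := by
    ext x
    simp [hp0]
  rw [h1, Set.ncard_coe_finset, Multiset.toFinset_card_of_nodup (nodup_roots hsep), ← hd]
  exact (IsAlgClosed.splits p).natDegree_eq_card_roots.symm

lemma nd (n : ℕ) (r : L[X]) (h : r.degree < n) : (X ^ n + r).natDegree = n := by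
  apply natDegree_eq_of_degree_eq_some
  rw [degree_add_eq_left_of_degree_lt (by rw [degree_X_pow]; exact h), degree_X_pow]

variable (D : HD L)

lemma card_K : {x : L | x ^ D.q = x}.ncard = D.q := by
  have hq := D.h5
  have h1 := card_zeros (X ^ D.q + -X : L[X]) D.q (-1) ?_ ?_ (neg_ne_zero.mpr one_ne_zero)
  · have h2 : {x : L | x ^ D.q = x} = {x : L | (X ^ D.q + -X : L[X]).eval x = 0} := by
      ext x
      show x ^ D.q = x ↔ eval x (X ^ D.q + -X : L[X]) = 0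
      rw [eval_add, eval_pow, eval_X, eval_neg, eval_X]
      exact ⟨fun h => by rw [h]; ring, fun h => by linear_combination h⟩
    rw [h2]
    exact h1
  · apply nd
    rw [degree_neg, degree_X]
    exact_mod_cast (by omega : 1 < D.q)
  · rw [derivative_add, derivative_X_pow, D.qz, derivative_neg, derivative_X]
    simp

lemma card_N : {x : L | x ^ (D.q ^ 3) = x}.ncard = D.q ^ 3 := by
  have hq := D.h5
  have hq3 : 1 < D.q ^ 3 := Nat.one_lt_pow (by norm_num) (by omega)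
  have h1 := card_zeros (X ^ (D.q ^ 3) + -X : L[X]) (D.q ^ 3) (-1) ?_ ?_
    (neg_ne_zero.mpr one_ne_zero)
  · have h2 : {x : L | x ^ (D.q ^ 3) = x} = {x : L | (X ^ (D.q ^ 3) + -X : L[X]).eval x = 0} := by
      ext x
      show x ^ (D.q ^ 3) = x ↔ eval x (X ^ (D.q ^ 3) + -X : L[X]) = 0
      rw [eval_add, eval_pow, eval_X, eval_neg, eval_X]
      exact ⟨fun h => by rw [h]; ring, fun h => by linear_combination h⟩
    rw [h2]
    exact h1
  · apply nd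
    rw [degree_neg, degree_X]
    exact_mod_cast hq3
  · rw [derivative_add, derivative_X_pow, Nat.cast_pow, D.qz, derivative_neg, derivative_X]
    simp

lemma card_T : {x : L | x + x ^ D.q + x ^ (D.q ^ 2) = 0}.ncard = D.q ^ 2 := by
  have hq := D.h5
  have hq2 : D.q < D.q ^ 2 := by nlinarith
  have h1 := card_zeros (X ^ (D.q ^ 2) + (X ^ D.q + X) : L[X]) (D.q ^ 2) 1 ?_ ?_ one_ne_zero
  · have h2 : {x : L | x + x ^ D.q + x ^ (D.q ^ 2) = 0} =
        {x : L | (X ^ (D.q ^ 2) + (X ^ D.q + X) : L[X]).eval x = 0} := by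
      ext x
      show x + x ^ D.q + x ^ (D.q ^ 2) = 0 ↔ eval x (X ^ (D.q ^ 2) + (X ^ D.q + X) : L[X]) = 0
      rw [eval_add, eval_add, eval_pow, eval_pow, eval_X]
      exact ⟨fun h => by linear_combination h, fun h => by linear_combination h⟩
    rw [h2]
    exact h1
  · apply nd
    refine lt_of_le_of_lt (degree_add_le _ _) ?_
    rw [degree_X_pow, degree_X]
    refine max_lt ?_ ?_
    · exact_mod_cast hq2
    · exact_mod_cast (by omega : 1 < D.q ^ 2)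
  · rw [derivative_add, derivative_X_pow, Nat.cast_pow, D.qz, derivative_add, derivative_X_pow,
      D.qz, derivative_X]
    simp

lemma three_q (D : HD L) (v : L) (hv : v ^ D.q = v) (n : ℕ) : v ^ (D.q ^ n) = v := by
  induction n with
  | zero => simp
  | succ k ih => rw [← D.pq, ih, hv]

/-- the count of the zeros of the trace form -/
lemma card_Z (h3 : (3 : L) = 0) :
    {v : L | v ^ (D.q ^ 3) = v ∧ v ^ 2 + (v ^ D.q) ^ 2 + (v ^ (D.q ^ 2)) ^ 2 = 0}.ncard =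
      D.q ^ 2 := by
  have hq := D.h5
  obtain ⟨K, hK⟩ : ∃ K : Set L, K = {x | x ^ D.q = x} := ⟨_, rfl⟩
  obtain ⟨N, hN⟩ : ∃ N : Set L, N = {x | x ^ (D.q ^ 3) = x} := ⟨_, rfl⟩
  obtain ⟨N0, hN0⟩ : ∃ N0 : Set L, N0 = {x | x + x ^ D.q + x ^ (D.q ^ 2) = 0} := ⟨_, rfl⟩
  have cK : K.ncard = D.q := by rw [hK]; exact card_K D
  have cN : N.ncard = D.q ^ 3 := by rw [hN]; exact card_N D
  have cN0 : N0.ncard = D.q ^ 2 := by rw [hN0]; exact card_T D
  have mK : ∀ x, x ∈ K ↔ x ^ D.q = x := fun x => by rw [hK]; rfl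
  have mN : ∀ x, x ∈ N ↔ x ^ (D.q ^ 3) = x := fun x => by rw [hN]; rfl
  have mN0 : ∀ x, x ∈ N0 ↔ x + x ^ D.q + x ^ (D.q ^ 2) = 0 := fun x => by rw [hN0]; rfl
  have fK : K.Finite := Set.finite_of_ncard_ne_zero (by rw [cK]; omega)
  have fN : N.Finite := Set.finite_of_ncard_ne_zero (by rw [cN]; positivity)
  have hsub : N0 ⊆ N := by
    intro x hx
    rw [mN0] at hx
    rw [mN]
    have h1 : (x + x ^ D.q + x ^ (D.q ^ 2)) ^ D.q = 0 := by
      rw [hx]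
      exact zero_pow D.q_ne
    rw [D.add, D.add, D.qq, D.pq] at h1
    linear_combination h1 - hx
  obtain ⟨Z', hZ'⟩ : ∃ Z' : Set L, Z' = {v | v ∈ N \ N0 ∧
    v ^ 2 + (v ^ D.q) ^ 2 + (v ^ (D.q ^ 2)) ^ 2 = 0} := ⟨_, rfl⟩
  have mZ' : ∀ v, v ∈ Z' ↔ v ∈ N \ N0 ∧ v ^ 2 + (v ^ D.q) ^ 2 + (v ^ (D.q ^ 2)) ^ 2 = 0 :=
    fun x => by rw [hZ']; rfl
  have fZ' : Z'.Finite := fN.subset (fun v hv => ((mZ' v).mp hv).1.1)
  -- the cosets
  have hprod : (fun p : L × L => p.1 + p.2) '' (Z' ×ˢ K) = N \ N0 := by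
    ext v
    constructor
    · rintro ⟨⟨z, l⟩, ⟨hz, hl⟩, rfl⟩
      have hz' := (mZ' z).mp hz
      have hl' := (mK l).mp hl
      have hzN := (mN z).mp hz'.1.1
      have hl2 := three_q D l hl' 2
      have hl3 := three_q D l hl' 3
      refine ⟨?_, ?_⟩
      · rw [mN]
        show (z + l) ^ (D.q ^ 3) = z + l
        rw [D.addn, hzN, hl3]
      · intro h
        rw [mN0] at h
        change (z + l) + (z + l) ^ D.q + (z + l) ^ (D.q ^ 2) = 0 at h
        rw [D.add, D.addn, hl', hl2] at h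
        exact hz'.1.2 ((mN0 z).mpr (by linear_combination h - l * h3))
    · rintro ⟨hvN, hv0⟩
      have hvN' := (mN v).mp hvN
      rw [mN0] at hv0
      obtain ⟨τ, hτ⟩ : ∃ τ, τ = v + v ^ D.q + v ^ (D.q ^ 2) := ⟨_, rfl⟩
      obtain ⟨Qv, hQ⟩ : ∃ Qv, Qv = v ^ 2 + (v ^ D.q) ^ 2 + (v ^ (D.q ^ 2)) ^ 2 := ⟨_, rfl⟩
      have hτq : τ ^ D.q = τ := by
        rw [hτ, D.add, D.add, D.qq, D.pq, hvN']
        ring
      have hQq : Qv ^ D.q = Qv := by
        have h1 : Qv = v * v + v ^ D.q * v ^ D.q + v ^ (D.q ^ 2) * v ^ (D.q ^ 2) := by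
          rw [hQ]; ring
        rw [h1, D.add, D.add, mul_pow, mul_pow, mul_pow, D.qq, D.pq, hvN']
        ring
      rw [← hτ] at hv0
      obtain ⟨l, hl⟩ : ∃ l, l = Qv / (2 * τ) := ⟨_, rfl⟩
      have hlK : l ^ D.q = l := by
        rw [hl, div_pow, mul_pow, hQq, hτq, D.ofNat_q 2]
      have hl2 : l ^ (D.q ^ 2) = l := three_q D l hlK 2
      have hl3 : l ^ (D.q ^ 3) = l := three_q D l hlK 3
      have hlτ : 2 * l * τ = Qv := by
        rw [hl]
        have := D.two_ne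
        field_simp
      refine ⟨(v - l, l), ⟨(mZ' _).mpr ⟨⟨?_, ?_⟩, ?_⟩, (mK l).mpr hlK⟩, sub_add_cancel v l⟩
      · rw [mN, D.subn, hvN', hl3]
      · rw [mN0, D.sub_q, D.subn, hlK, hl2]
        intro h
        apply hv0
        rw [hτ]
        linear_combination h + l * h3
      · rw [D.sub_q, D.subn, hlK, hl2]
        linear_combination hQ.symm - hlτ + 2 * l * hτ + l ^ 2 * h3 
  have hinj : Set.InjOn (fun p : L × L => p.1 + p.2) (Z' ×ˢ K) := by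
    rintro ⟨z, l⟩ ⟨hz, hl⟩ ⟨z', l'⟩ ⟨hz', hl'⟩ h
    change z + l = z' + l' at h
    have hz1 := (mZ' z).mp hz
    have hz1' := (mZ' z').mp hz'
    have hl1 := (mK l).mp hl
    have hl1' := (mK l').mp hl'
    obtain ⟨d, hd⟩ : ∃ d, d = l - l' := ⟨_, rfl⟩
    have hdK : d ^ D.q = d := by rw [hd, D.sub_q, hl1, hl1']
    have hd2 : d ^ (D.q ^ 2) = d := three_q D d hdK 2
    have hzd : z' = z + d := by
      rw [hd]
      linear_combination -h
    have h1 := hz1'.2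
    rw [hzd, D.add, D.addn, hdK, hd2] at h1
    have h2 : 2 * d * (z + z ^ D.q + z ^ (D.q ^ 2)) = 0 := by
      linear_combination h1 - hz1.2 - d ^ 2 * h3
    have hT : z + z ^ D.q + z ^ (D.q ^ 2) ≠ 0 := fun h => hz1.1.2 ((mN0 z).mpr h)
    have hd0 : d = 0 := by
      rcases mul_eq_zero.mp h2 with h | h
      · rcases mul_eq_zero.mp h with h | h
        · exact absurd h D.two_ne
        · exact h
      · exact absurd h hT
    have e1 : l = l' := by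
      rw [hd0] at hd
      exact (sub_eq_zero.mp hd.symm)
    have e2 : z = z' := by rw [hzd, hd0, add_zero]
    rw [e1, e2]
  have c1 : Z'.ncard * D.q = D.q ^ 3 - D.q ^ 2 := by
    have h1 : ((fun p : L × L => p.1 + p.2) '' (Z' ×ˢ K)).ncard = Z'.ncard * K.ncard := by
      rw [hinj.ncard_image, Set.ncard_prod]
    rw [hprod, cK, Set.ncard_sdiff hsub (fN.subset hsub), cN, cN0] at h1
    exact h1.symm
  have c2 : Z'.ncard = D.q ^ 2 - D.q := by
    have h1 : D.q ^ 3 - D.q ^ 2 = (D.q ^ 2 - D.q) * D.q := by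
      rw [Nat.sub_mul]
      ring_nf
    rw [h1] at c1
    exact Nat.eq_of_mul_eq_mul_right (by omega) c1
  have hunion : {v : L | v ^ (D.q ^ 3) = v ∧ v ^ 2 + (v ^ D.q) ^ 2 + (v ^ (D.q ^ 2)) ^ 2 = 0} =
      K ∪ Z' := by
    ext v
    constructor
    · rintro ⟨h1, h2⟩
      by_cases h0 : v + v ^ D.q + v ^ (D.q ^ 2) = 0
      · left
        rw [mK]
        have h4 : (v ^ D.q - v) ^ 2 = 0 := by
          have h5 : v ^ (D.q ^ 2) = -v - v ^ D.q := by linear_combination h0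
          rw [h5] at h2
          linear_combination 2 * h2 - (v ^ 2 + (v ^ D.q) ^ 2 + 2 * (v * v ^ D.q)) * h3
        exact sub_eq_zero.mp (pow_eq_zero_iff (two_ne_zero)|>.mp h4)
      · right
        exact (mZ' v).mpr ⟨⟨(mN v).mpr h1, fun h => h0 ((mN0 v).mp h)⟩, h2⟩
    · rintro (h | h)
      · have h1 := (mK v).mp h
        refine ⟨three_q D v h1 3, ?_⟩
        rw [three_q D v h1 2, h1]
        linear_combination v ^ 2 * h3
      · have h1 := (mZ' v).mp h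
        exact ⟨(mN v).mp h1.1.1, h1.2⟩
  have hdisj : Disjoint K Z' := by
    rw [Set.disjoint_left]
    intro v hv hv'
    have h1 := (mK v).mp hv
    refine ((mZ' v).mp hv').1.2 ((mN0 v).mpr ?_)
    rw [three_q D v h1 2, h1]
    linear_combination v * h3
  rw [hunion, Set.ncard_union_eq hdisj fK fZ', cK, c2]
  have : D.q ≤ D.q ^ 2 := by nlinarith
  omega

omit [IsAlgClosed L] in
lemma alg1 (h3 : (3 : L) = 0) (w0 w1 w2 w3 w4 w5 c t : L) (E0 : w0 = w3 - c * t)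
    (E2 : w2 = w5 - c * t) (E4 : w4 = w1 - c * t) (hQ : w0 * w3 + w2 * w5 + w4 * w1 = 0) :
    (2 * (w0 + w3)) ^ 2 + (2 * (w1 + w4)) ^ 2 + (2 * (w2 + w5)) ^ 2 = 0 := by
  subst E0 E2 E4
  linear_combination 16 * hQ + 4 * c ^ 2 * t ^ 2 * h3

/-- the conic in characteristic 3 -/
lemma main (h3 : (3 : L) = 0) (n : L) (hn : n ^ (D.q + 1) = 1) :
    {y : L | D.isL y ∧ PiN D n y}.ncard = D.q ^ 2 - 1 := by
  have hq := D.h5
  have h2 := D.two_ne
  have hth : D.th = 0 := by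
    have h := D.th2
    rw [h3] at h
    exact pow_eq_zero_iff (two_ne_zero) |>.mp h
  have hn0 : n ≠ 0 := by
    rintro rfl
    rw [zero_pow (Nat.succ_ne_zero _)] at hn
    exact zero_ne_one hn
  have hnq : n * n ^ D.q = 1 := by
    rw [← hn, pow_succ']
  have hnq' : n ^ D.q = n⁻¹ := eq_inv_of_mul_eq_one_right hnq
  have hn1 : n ^ 2 + 1 ≠ 0 := by
    intro h
    have h1 : (n - D.ii) * (n + D.ii) = 0 := by linear_combination h - D.ii2
    have h4 : n ^ D.q = n := by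
      rcases mul_eq_zero.mp h1 with h5 | h5
      · rw [sub_eq_zero.mp h5, D.iiq]
      · rw [eq_neg_of_add_eq_zero_left h5, D.neg_q, D.iiq]
    rw [h4] at hnq
    exact h2 (by linear_combination h - hnq)
  have hn1' : 1 + n ^ 2 ≠ 0 := by
    rw [add_comm]
    exact hn1
  obtain ⟨ka, hka⟩ : ∃ ka : L, ka ^ (D.q - 1) = n⁻¹ :=
    IsAlgClosed.exists_pow_nat_eq _ (by omega)
  have hka0 : ka ≠ 0 := by
    rintro rfl
    rw [zero_pow (by omega)] at hka
    exact inv_ne_zero hn0 hka.symm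
  have k1 : ka ^ D.q = ka / n := by
    have : D.q = (D.q - 1) + 1 := by omega
    rw [this, pow_succ, hka]
    field_simp
  have k2 : ka ^ (D.q ^ 2) = ka := by
    rw [← D.qq, k1, div_pow, k1, hnq']
    field_simp
  have k3 : ka ^ (D.q ^ 3) = ka / n := by rw [← D.pq _ 2, k2, k1]
  have k4 : ka ^ (D.q ^ 4) = ka := by rw [← D.pp _ 2 2, k2, k2]
  have k5 : ka ^ (D.q ^ 5) = ka / n := by rw [← D.pq _ 4, k4, k1]
  have k6 : ka ^ (D.q ^ 6) = ka := by rw [← D.pp _ 4 2, k4, k2]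
  obtain ⟨c, hc⟩ : ∃ c, c = (1 - n ^ 2) / (1 + n ^ 2) := ⟨_, rfl⟩
  have hcm : c * (1 + n ^ 2) = 1 - n ^ 2 := by
    rw [hc]
    field_simp
  have c1 : c ^ D.q = -c := by
    have e1 : (n ^ 2) ^ D.q = (n ^ 2)⁻¹ := by rw [← pow_mul, mul_comm, pow_mul, hnq', inv_pow]
    have e2 : (c * (1 + n ^ 2)) ^ D.q = (1 - n ^ 2) ^ D.q := by rw [hcm]
    rw [mul_pow, D.add, D.sub_q, one_pow, e1] at e2
    have e3 : c ^ D.q * (1 + n ^ 2) = -(1 - n ^ 2) := by
      have hnn : n ^ 2 * (n ^ 2)⁻¹ = 1 := mul_inv_cancel₀ (pow_ne_zero 2 hn0)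
      linear_combination (n ^ 2) * e2 - (c ^ D.q + 1) * hnn
    rw [← hcm] at e3
    have e4 : (c ^ D.q + c) * (1 + n ^ 2) = 0 := by linear_combination e3
    exact eq_neg_of_add_eq_zero_left ((mul_eq_zero.mp e4).resolve_right hn1')
  have c2 : c ^ (D.q ^ 2) = c := by rw [← D.qq, c1, D.neg_q, c1, neg_neg]
  have c3 : c ^ (D.q ^ 3) = -c := by rw [← D.pq _ 2, c2, c1]
  have c4 : c ^ (D.q ^ 4) = c := by rw [← D.pp _ 2 2, c2, c2]
  have c5 : c ^ (D.q ^ 5) = -c := by rw [← D.pq _ 4, c4, c1]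
  have c6 : c ^ (D.q ^ 6) = c := by rw [← D.pp _ 4 2, c4, c2]
  obtain ⟨Z, hZ⟩ : ∃ Z : Set L, Z =
    {v : L | v ^ (D.q ^ 3) = v ∧ v ^ 2 + (v ^ D.q) ^ 2 + (v ^ (D.q ^ 2)) ^ 2 = 0} := ⟨_, rfl⟩
  have mZ : ∀ v, v ∈ Z ↔ v ^ (D.q ^ 3) = v ∧
    v ^ 2 + (v ^ D.q) ^ 2 + (v ^ (D.q ^ 2)) ^ 2 = 0 := fun v => by rw [hZ]; rfl
  have cZ : Z.ncard = D.q ^ 2 := by rw [hZ]; exact card_Z D h3
  have fZ : Z.Finite := Set.finite_of_ncard_ne_zero (by rw [cZ]; positivity)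
  -- conjugates of the image point
  have conj : ∀ v : L, v ^ (D.q ^ 3) = v →
      ∀ τ, τ = v + v ^ D.q + v ^ (D.q ^ 2) →
      τ ^ D.q = τ ∧ (v + c * τ) ^ D.q = v ^ D.q - c * τ ∧
      (v + c * τ) ^ (D.q ^ 2) = v ^ (D.q ^ 2) + c * τ ∧ (v + c * τ) ^ (D.q ^ 3) = v - c * τ ∧
      (v + c * τ) ^ (D.q ^ 4) = v ^ D.q + c * τ ∧
      (v + c * τ) ^ (D.q ^ 5) = v ^ (D.q ^ 2) - c * τ ∧
      (v + c * τ) ^ (D.q ^ 6) = v + c * τ := by
    intro v hv τ hτ
    have hτq : τ ^ D.q = τ := by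
      rw [hτ, D.add, D.add, D.qq, D.pq, hv]
      ring
    have hτn := three_q D τ hτq
    have v4 : v ^ (D.q ^ 4) = v ^ D.q := by rw [← D.pq _ 3, hv]
    have v5 : v ^ (D.q ^ 5) = v ^ (D.q ^ 2) := by rw [← D.pp _ 3 2, hv]
    have v6 : v ^ (D.q ^ 6) = v := by rw [← D.pp _ 3 3, hv, hv]
    refine ⟨hτq, ?_, ?_, ?_, ?_, ?_, ?_⟩
    · rw [D.add, mul_pow, c1, hτq]; ring
    · rw [D.addn, mul_pow, c2, hτn]
    · rw [D.addn, mul_pow, c3, hτn, hv]; ring
    · rw [D.addn, mul_pow, c4, hτn, v4]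
    · rw [D.addn, mul_pow, c5, hτn, v5]; ring
    · rw [D.addn, mul_pow, c6, hτn, v6]
  obtain ⟨F, hF⟩ : ∃ F : L → L, ∀ v, F v = ka * (v + c * (v + v ^ D.q + v ^ (D.q ^ 2))) :=
    ⟨_, fun _ => rfl⟩
  have himg : F '' (Z \ {0}) = {y : L | D.isL y ∧ PiN D n y} := by
    ext y
    constructor
    · rintro ⟨v, ⟨hv, hv0⟩, rfl⟩
      have hv0' : v ≠ 0 := fun h => hv0 (by rw [h]; rfl)
      obtain ⟨hv1, hv2⟩ := (mZ v).mp hv
      rw [hF]
      obtain ⟨τ, hτ⟩ : ∃ τ, τ = v + v ^ D.q + v ^ (D.q ^ 2) := ⟨_, rfl⟩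
      rw [← hτ]
      obtain ⟨-, w1, w2, w3, w4, w5, w6⟩ := conj v hv1 τ hτ
      have y1 : (ka * (v + c * τ)) ^ D.q = ka / n * (v ^ D.q - c * τ) := by
        rw [mul_pow, k1, w1]
      have y2 : (ka * (v + c * τ)) ^ (D.q ^ 2) = ka * (v ^ (D.q ^ 2) + c * τ) := by
        rw [mul_pow, k2, w2]
      have y3 : (ka * (v + c * τ)) ^ (D.q ^ 3) = ka / n * (v - c * τ) := by
        rw [mul_pow, k3, w3]
      have y4 : (ka * (v + c * τ)) ^ (D.q ^ 4) = ka * (v ^ D.q + c * τ) := by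
        rw [mul_pow, k4, w4]
      have y5 : (ka * (v + c * τ)) ^ (D.q ^ 5) = ka / n * (v ^ (D.q ^ 2) - c * τ) := by
        rw [mul_pow, k5, w5]
      have y6 : (ka * (v + c * τ)) ^ (D.q ^ 6) = ka * (v + c * τ) := by
        rw [mul_pow, k6, w6]
      refine ⟨⟨?_, y6, ?_⟩, ?_⟩
      · intro h
        have h4 : v + c * τ = 0 := (mul_eq_zero.mp h).resolve_left hka0
        have h5 : v - c * τ = 0 := by
          rw [← w3, h4]
          exact zero_pow (pow_ne_zero _ D.q_ne)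
        have h6 : 2 * v = 0 := by linear_combination h4 + h5
        exact hv0' ((mul_eq_zero.mp h6).resolve_left h2)
      · rw [y1, y2, y3, y4, y5]
        linear_combination (ka * (ka / n)) * hv2 - (ka * (ka / n)) * (c ^ 2 * τ ^ 2) * h3
      · show 2 * (n ^ 2 + 1) * (ka * (v + c * τ)) - D.th * n * ((ka * (v + c * τ)) ^ (D.q ^ 2) -
          (ka * (v + c * τ)) ^ (D.q ^ 4)) = n * (-2 * n ^ 2 * (ka * (v + c * τ)) ^ (D.q ^ 3) +
          (2 * n ^ 2 + 1) * ((ka * (v + c * τ)) ^ (D.q ^ 5) + (ka * (v + c * τ)) ^ D.q))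
        rw [hth, y1, y3, y5]
        have e1 : n * (ka / n) = ka := mul_div_cancel₀ ka hn0
        linear_combination (-(-2 * n ^ 2 * (v - c * τ) +
          (2 * n ^ 2 + 1) * (v ^ (D.q ^ 2) - c * τ + (v ^ D.q - c * τ)))) * e1 +
          ka * (2 * n ^ 2 + 1) * hτ + 4 * ka * τ * hcm +
          ka * (v * (2 * n ^ 2 + 1) + τ * (1 - 2 * n ^ 2)) * h3
    · rintro ⟨⟨hy0, hy6, hyQ⟩, hyP⟩
      obtain ⟨w, hw⟩ : ∃ w, w = y / ka := ⟨_, rfl⟩
      have hyw : y = ka * w := by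
        rw [hw]
        field_simp
      have w6 : w ^ (D.q ^ 6) = w := by
        rw [hw, div_pow, hy6, k6]
      have y1 : y ^ D.q = ka / n * w ^ D.q := by rw [hyw, mul_pow, k1]
      have y2 : y ^ (D.q ^ 2) = ka * w ^ (D.q ^ 2) := by rw [hyw, mul_pow, k2]
      have y3 : y ^ (D.q ^ 3) = ka / n * w ^ (D.q ^ 3) := by rw [hyw, mul_pow, k3]
      have y4 : y ^ (D.q ^ 4) = ka * w ^ (D.q ^ 4) := by rw [hyw, mul_pow, k4]
      have y5 : y ^ (D.q ^ 5) = ka / n * w ^ (D.q ^ 5) := by rw [hyw, mul_pow, k5]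
      have hQ : w * w ^ (D.q ^ 3) + w ^ (D.q ^ 2) * w ^ (D.q ^ 5) +
          w ^ (D.q ^ 4) * w ^ D.q = 0 := by
        rw [y1, y2, y3, y4, y5, hyw] at hyQ
        have h4 : ka * (ka / n) * (w * w ^ (D.q ^ 3) + w ^ (D.q ^ 2) * w ^ (D.q ^ 5) +
          w ^ (D.q ^ 4) * w ^ D.q) = 0 := by linear_combination hyQ
        exact (mul_eq_zero.mp h4).resolve_left (mul_ne_zero hka0 (div_ne_zero hka0 hn0))
      obtain ⟨t, ht⟩ : ∃ t, t = w ^ D.q + w ^ (D.q ^ 3) + w ^ (D.q ^ 5) := ⟨_, rfl⟩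
      have E0 : w = w ^ (D.q ^ 3) - c * t := by
        have h4 : 2 * (n ^ 2 + 1) * y - D.th * n * (y ^ (D.q ^ 2) - y ^ (D.q ^ 4)) =
          n * (-2 * n ^ 2 * y ^ (D.q ^ 3) + (2 * n ^ 2 + 1) * (y ^ (D.q ^ 5) + y ^ D.q)) := hyP
        rw [hth, y1, y3, y5, hyw] at h4
        have e1 : n * (ka / n) = ka := mul_div_cancel₀ ka hn0
        have h5 : (2 * ka * (1 + n ^ 2)) * (w - w ^ (D.q ^ 3) + c * t) = 0 := by
          linear_combination h4 + (-2 * n ^ 2 * w ^ (D.q ^ 3) +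
            (2 * n ^ 2 + 1) * (w ^ (D.q ^ 5) + w ^ D.q)) * e1 + 2 * ka * t * hcm +
            2 * ka * (1 - n ^ 2) * ht +
            ka * (w ^ D.q + w ^ (D.q ^ 5) - 2 * n ^ 2 * w ^ (D.q ^ 3)) * h3
        have h6 := (mul_eq_zero.mp h5).resolve_left (mul_ne_zero (mul_ne_zero h2 hka0) hn1')
        linear_combination h6
      have t2 : t ^ (D.q ^ 2) = t := by
        rw [ht, D.addn, D.addn, D.qp, D.pp, D.pp]
        norm_num
        rw [D.p7 w6]
        ring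
      have t4 : t ^ (D.q ^ 4) = t := by rw [← D.pp _ 2 2, t2, t2]
      have E2 : w ^ (D.q ^ 2) = w ^ (D.q ^ 5) - c * t := by
        have h4 : w ^ (D.q ^ 2) = (w ^ (D.q ^ 3) - c * t) ^ (D.q ^ 2) := by rw [← E0]
        rw [D.subn, mul_pow, c2, t2, D.pp] at h4
        exact h4
      have E4 : w ^ (D.q ^ 4) = w ^ D.q - c * t := by
        have h4 : w ^ (D.q ^ 4) = (w ^ (D.q ^ 3) - c * t) ^ (D.q ^ 4) := by rw [← E0]
        rw [D.subn, mul_pow, c4, t4, D.pp] at h4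
        have h5 : w ^ (D.q ^ (3 + 4)) = w ^ D.q := D.p7 w6
        rw [h5] at h4
        exact h4
      obtain ⟨v, hv⟩ : ∃ v, v = 2 * (w + w ^ (D.q ^ 3)) := ⟨_, rfl⟩
      have v1 : v ^ D.q = 2 * (w ^ D.q + w ^ (D.q ^ 4)) := by
        rw [hv, mul_pow, D.ofNat_q 2, D.add, D.pq]
      have v2 : v ^ (D.q ^ 2) = 2 * (w ^ (D.q ^ 2) + w ^ (D.q ^ 5)) := by
        rw [hv, mul_pow, D.ofNatn 2 2, D.addn, D.pp]
      have v3 : v ^ (D.q ^ 3) = v := by
        rw [hv, mul_pow, D.ofNatn 3 2, D.addn, D.pp]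
        have h4 : w ^ (D.q ^ (3 + 3)) = w := w6
        rw [h4, add_comm]
      have hvQ : v ^ 2 + (v ^ D.q) ^ 2 + (v ^ (D.q ^ 2)) ^ 2 = 0 := by
        rw [v1, v2, hv]
        exact alg1 h3 _ _ _ _ _ _ c t E0 E2 E4 hQ
      have hTr : v + v ^ D.q + v ^ (D.q ^ 2) = t := by
        rw [v1, v2, hv]
        linear_combination 2 * E0 + 2 * E2 + 2 * E4 - 4 * ht + (t - 2 * c * t) * h3
      have hFv : F v = y := by
        rw [hF, hTr, hyw, hv]
        linear_combination ka * E0 + ka * w ^ (D.q ^ 3) * h3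
      refine ⟨v, ⟨(mZ v).mpr ⟨v3, hvQ⟩, ?_⟩, hFv⟩
      intro h
      have hv0 : v = 0 := h
      apply hy0
      have hq0 := D.q_ne
      rw [← hFv, hF, hv0, zero_pow hq0, zero_pow (pow_ne_zero _ hq0)]
      ring
  have hinj : Set.InjOn F (Z \ {0}) := by
    rintro v ⟨hv, -⟩ v' ⟨hv', -⟩ h
    obtain ⟨hv1, -⟩ := (mZ v).mp hv
    obtain ⟨hv1', -⟩ := (mZ v').mp hv'
    rw [hF, hF] at h
    have h4 := mul_left_cancel₀ hka0 h
    obtain ⟨-, -, -, w3, -, -, -⟩ := conj v hv1 _ rfl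
    obtain ⟨-, -, -, w3', -, -, -⟩ := conj v' hv1' _ rfl
    have h5 : 2 * (v - v') = 0 := by
      have h6 := w3
      rw [h4, w3'] at h6
      linear_combination h4 - h6
    exact sub_eq_zero.mp ((mul_eq_zero.mp h5).resolve_left h2)
  rw [← himg, hinj.ncard_image, Set.ncard_sdiff_singleton_of_mem, cZ]
  rw [mZ]
  have := D.q_ne
  refine ⟨zero_pow (pow_ne_zero _ this), ?_⟩
  rw [zero_pow this, zero_pow (pow_ne_zero _ this)]
  ring

end count

theorem CS3 : S_CS3 := fun _ _ _ D n h3 hn => main D h3 n hn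

end Pool.Agent.TH811.HS3
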